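import Mathlib

/-! Centrally symmetric bodies in dimension three: algebra of the maximal inscribed octahedron. -/

set_option autoImplicit false

open Set Filter Topology

namespace Pool.Agent.Lib.MP_5e7226_co.CS

abbrev V3 := Fin 3 → ℝ

/-- the determinant -/
def D (x y z : V3) : ℝ :=
  x 0 * (y 1 * z 2 - y 2 * z 1) + x 1 * (y 2 * z 0 - y 0 * z 2) + x 2 * (y 0 * z 1 - y 1 * z 0)

lemma fin_a (i : Fin 3) : i + 1 + 1 = i + 2 := by fin_cases i <;> rfl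
lemma fin_b (i : Fin 3) : i + 1 + 2 = i := by fin_cases i <;> rfl
lemma fin_c (i : Fin 3) : i + 2 + 1 = i := by fin_cases i <;> rfl
lemma fin_d (i : Fin 3) : i + 2 + 2 = i + 1 := by fin_cases i <;> rfl
lemma fin_n1 (i : Fin 3) : i + 1 ≠ i := by fin_cases i <;> decide
lemma fin_n2 (i : Fin 3) : i + 2 ≠ i := by fin_cases i <;> decide
lemma fin_n3 (i : Fin 3) : i + 1 ≠ i + 2 := by fin_cases i <;> decide

lemma D_cyc (i : Fin 3) (x y z : V3) : D x y z =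
    x i * (y (i + 1) * z (i + 2) - y (i + 2) * z (i + 1)) +
    x (i + 1) * (y (i + 2) * z i - y i * z (i + 2)) +
    x (i + 2) * (y i * z (i + 1) - y (i + 1) * z i) := by
  fin_cases i
  · simp [D]
  · have h1 : ((1 : Fin 3) + 1) = 2 := rfl
    have h2 : ((1 : Fin 3) + 2) = 0 := rfl
    simp only [D, Fin.mk_one, h1, h2]
    ring
  · have h1 : ((2 : Fin 3) + 1) = 0 := rfl
    have h2 : ((2 : Fin 3) + 2) = 1 := rfl
    have h3 : (⟨2, by decide⟩ : Fin 3) = 2 := rfl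
    simp only [D, h1, h2, h3]
    ring

/-- the unit vectors -/
noncomputable def ev (i : Fin 3) : V3 := Pi.single i 1

lemma ev_self (i : Fin 3) : ev i i = 1 := by simp [ev]
lemma ev_ne {i j : Fin 3} (h : j ≠ i) : ev i j = 0 := by simp [ev, h]

/-- a vector of signs -/
def IsSgn (σ : V3) : Prop := ∀ i, σ i = 1 ∨ σ i = -1

lemma IsSgn.mul {σ : V3} (h : IsSgn σ) (i : Fin 3) : σ i * σ i = 1 := by
  rcases h i with h | h <;> rw [h] <;> norm_num

/-- the algebraic properties of a centrally symmetric body whose maximal inscribed octahedron is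
the standard one -/
structure CA (K : Set V3) : Prop where
  symm : ∀ x ∈ K, -x ∈ K
  e : ∀ i, ev i ∈ K
  det : ∀ x ∈ K, ∀ y ∈ K, ∀ z ∈ K, |D x y z| ≤ 1

lemma CA.box {K : Set V3} (H : CA K) {x : V3} (hx : x ∈ K) (i : Fin 3) : |x i| ≤ 1 := by
  have h := H.det x hx _ (H.e (i + 1)) _ (H.e (i + 2))
  rw [D_cyc i, ev_self, ev_self, ev_ne (fin_n3 i).symm, ev_ne (fin_n3 i), ev_ne (fin_n1 i).symm,
    ev_ne (fin_n2 i).symm] at h
  simpa using h

/-- the determinant with one unit vector -/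
lemma CA.det1 {K : Set V3} (H : CA K) {x y : V3} (hx : x ∈ K) (hy : y ∈ K) (i : Fin 3) :
    |x (i + 1) * y (i + 2) - x (i + 2) * y (i + 1)| ≤ 1 := by
  have h := H.det _ (H.e i) x hx y hy
  rw [D_cyc i, ev_self, ev_ne (fin_n1 i), ev_ne (fin_n2 i)] at h
  simpa using h

/-- sign changes -/
lemma CA.sgn {K : Set V3} (H : CA K) {σ : V3} (hσ : IsSgn σ) : CA {y | σ * y ∈ K} where
  symm := fun x hx => by
    have := H.symm _ hx
    simpa using this
  e := fun i => by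
    have h1 : σ * ev i = ev i ∨ σ * ev i = -ev i := by
      rcases hσ i with h | h
      · left
        ext j
        by_cases hj : j = i
        · subst hj; simp [h]
        · simp [ev_ne hj]
      · right
        ext j
        by_cases hj : j = i
        · subst hj; simp [h]
        · simp [ev_ne hj]
    rcases h1 with h1 | h1
    · simpa [h1] using H.e i
    · simpa [h1] using H.symm _ (H.e i)
  det := fun x hx y hy z hz => by
    have h := H.det _ hx _ hy _ hz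
    have e : D (σ * x) (σ * y) (σ * z) = (σ 0 * σ 1 * σ 2) * D x y z := by
      simp only [D, Pi.mul_apply]; ring
    rw [e, abs_mul] at h
    have h2 : |σ 0 * σ 1 * σ 2| = 1 := by
      rcases hσ 0 with h0 | h0 <;> rcases hσ 1 with h1 | h1 <;> rcases hσ 2 with h2 | h2 <;>
        rw [h0, h1, h2] <;> norm_num
    rwa [h2, one_mul] at h

/-- trouble at an edge midpoint: on the face of `σ (i+1) x (i+1) + σ (i+2) x (i+2)` the coordinate
`x i` takes both values `±1` -/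
def Tr (K : Set V3) (i : Fin 3) (σ : V3) : Prop :=
  (∀ y ∈ K, σ (i + 1) * y (i + 1) + σ (i + 2) * y (i + 2) ≤ 1) ∧
  (∃ x ∈ K, x i = -1 ∧ σ (i + 1) * x (i + 1) + σ (i + 2) * x (i + 2) = 1) ∧
  (∃ x ∈ K, x i = 1 ∧ σ (i + 1) * x (i + 1) + σ (i + 2) * x (i + 2) = 1)

lemma Tr.sgn {K : Set V3} {i : Fin 3} {σ : V3} (hσ : IsSgn σ) (h : Tr K i σ) :
    Tr {y | σ * y ∈ K} i 1 := by
  obtain ⟨h1, ⟨x, hx, hx1, hx2⟩, ⟨y, hy, hy1, hy2⟩⟩ := h
  have key : ∀ z : V3, σ * (σ * z) = z := by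
    intro z
    ext j
    simp only [Pi.mul_apply]
    rw [← mul_assoc, hσ.mul, one_mul]
  refine ⟨?_, ?_, ?_⟩
  · intro z hz
    have := h1 _ hz
    simp only [Pi.mul_apply] at this
    rw [← mul_assoc, ← mul_assoc, hσ.mul, hσ.mul] at this
    simpa using this
  · rcases hσ i with h2 | h2
    · refine ⟨σ * x, by rw [mem_ofPred_eq, key]; exact hx, ?_, ?_⟩
      · simp [h2, hx1]
      · simpa using hx2
    · refine ⟨σ * y, by rw [mem_ofPred_eq, key]; exact hy, ?_, ?_⟩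
      · simp [h2, hy1]
      · simpa using hy2
  · rcases hσ i with h2 | h2
    · refine ⟨σ * y, by rw [mem_ofPred_eq, key]; exact hy, ?_, ?_⟩
      · simp [h2, hy1]
      · simpa using hy2
    · refine ⟨σ * x, by rw [mem_ofPred_eq, key]; exact hx, ?_, ?_⟩
      · simp [h2, hx1]
      · simpa using hx2

/-- what trouble means: the points on the face are `(-1, b, 1 - b)`, `(1, 1 - b, b)` -/
lemma tr_data {K : Set V3} (H : CA K) {i : Fin 3} {x x' : V3} (hx : x ∈ K) (hx' : x' ∈ K)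
    (h1 : x i = -1) (h2 : x (i + 1) + x (i + 2) = 1) (h3 : x' i = 1)
    (h4 : x' (i + 1) + x' (i + 2) = 1) :
    x' (i + 1) = 1 - x (i + 1) ∧ 0 ≤ x (i + 1) ∧ x (i + 1) ≤ 1 ∧
      ∀ z ∈ K, |(2 * x (i + 1) - 1) * z i + z (i + 1) - z (i + 2)| ≤ 1 := by
  have a1 := H.det1 hx hx' (i + 1)
  have a2 := H.det1 hx hx' (i + 2)
  rw [fin_a, fin_b, h1, h3] at a1
  rw [fin_c, fin_d, h1, h3] at a2
  rw [abs_le] at a1 a2
  have b1 := abs_le.1 (H.box hx (i + 1))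
  have b2 := abs_le.1 (H.box hx (i + 2))
  have e1 : x' (i + 1) = 1 - x (i + 1) := by linarith
  refine ⟨e1, by linarith, by linarith, fun z hz => ?_⟩
  have h := H.det x hx x' hx' z hz
  rw [D_cyc i, h1, h3] at h
  have e2 : x (i + 2) = 1 - x (i + 1) := by linarith
  have e3 : x' (i + 2) = x (i + 1) := by linarith
  rw [e1, e2, e3] at h
  have e4 : -1 * ((1 - x (i + 1)) * z (i + 2) - x (i + 1) * z (i + 1)) +
      x (i + 1) * (x (i + 1) * z i - 1 * z (i + 2)) +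
      (1 - x (i + 1)) * (1 * z (i + 1) - (1 - x (i + 1)) * z i) =
      (2 * x (i + 1) - 1) * z i + z (i + 1) - z (i + 2) := by ring
  rwa [e4] at h

lemma tr_adj {K : Set V3} (H : CA K) {i : Fin 3} (h1 : Tr K i 1) (h2 : Tr K (i + 1) 1) :
    False := by
  obtain ⟨p1, ⟨x, hx, x1, x2⟩, ⟨x', hx', x1', x2'⟩⟩ := h1
  obtain ⟨q1, ⟨y, hy, y1, y2⟩, ⟨y', hy', y1', y2'⟩⟩ := h2
  simp only [Pi.one_apply, one_mul] at p1 x2 x2' q1 y2 y2'
  obtain ⟨d1, d2, d3, d4⟩ := tr_data H hx hx' x1 x2 x1' x2'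
  obtain ⟨c1, c2, c3, c4⟩ := tr_data H hy hy' y1 y2 y1' y2'
  rw [fin_a] at c1 c2 c3 c4 y2 y2' q1
  rw [fin_b] at y2 y2' q1 c4
  -- `x' = (1, 1 - b, b)`, so `b = 0`
  have a1 := q1 x' hx'
  have hb : x (i + 1) = 0 := by linarith
  have a2 := p1 y' hy'
  -- `y = (1 - β, -1, β)`, `y' = (β, 1, 1 - β)`
  have hβ : y (i + 2) = 1 := by linarith
  have a3 := abs_le.1 (d4 y hy)
  rw [hb, y1, hβ] at a3
  have hyi : y i = 0 := by linarith
  rw [hyi] at a3
  linarith [a3.1]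

lemma tr_unique {K : Set V3} (H : CA K) {σ : V3} (hσ : IsSgn σ) {i j : Fin 3} (hi : Tr K i σ)
    (hj : Tr K j σ) : i = j := by
  by_contra hne
  have H' := H.sgn hσ
  have hi' := hi.sgn hσ
  have hj' := hj.sgn hσ
  have : j = i + 1 ∨ i = j + 1 := by
    revert hne
    fin_cases i <;> fin_cases j <;> decide
  rcases this with rfl | rfl
  · exact tr_adj H' hi' hj'
  · exact tr_adj H' hj' hi'

/-- trouble at an axis point -/
lemma axis_case {K : Set V3} (H : CA K) (k : Fin 3)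
    (hk : ∀ s t : ℝ, (s = 1 ∨ s = -1) → (t = 1 ∨ t = -1) →
      ∃ x ∈ K, x k = 1 ∧ s * x (k + 1) + t * x (k + 2) ≤ -1) :
    ∀ z ∈ K, |z (k + 1)| + |z (k + 2)| ≤ 1 := by
  obtain ⟨x1, hx1, k1, s1⟩ := hk 1 1 (Or.inl rfl) (Or.inl rfl)
  obtain ⟨x2, hx2, k2, s2⟩ := hk (-1) (-1) (Or.inr rfl) (Or.inr rfl)
  obtain ⟨x3, hx3, k3, s3⟩ := hk 1 (-1) (Or.inl rfl) (Or.inr rfl)
  obtain ⟨x4, hx4, k4, s4⟩ := hk (-1) 1 (Or.inr rfl) (Or.inl rfl)
  have w : ∀ {x y : V3}, x ∈ K → y ∈ K → x k = 1 → y k = 1 →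
      |y (k + 1) - x (k + 1)| ≤ 1 ∧ |x (k + 2) - y (k + 2)| ≤ 1 := by
    intro x y hx hy hxk hyk
    have a1 := H.det1 hx hy (k + 1)
    have a2 := H.det1 hx hy (k + 2)
    rw [fin_a, fin_b, hxk, hyk] at a1
    rw [fin_c, fin_d, hxk, hyk] at a2
    constructor
    · simpa using a2
    · simpa using a1
  have w12 := w hx1 hx2 k1 k2
  have w34 := w hx3 hx4 k3 k4
  have w13 := w hx1 hx3 k1 k3
  have w24 := w hx2 hx4 k2 k4
  have w23 := w hx2 hx3 k2 k3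
  have w14 := w hx1 hx4 k1 k4
  simp only [abs_le] at w12 w34 w13 w24 w23 w14
  obtain ⟨⟨_, a1⟩, ⟨a2, _⟩⟩ := w12
  obtain ⟨⟨_, b1⟩, ⟨_, b2⟩⟩ := w34
  obtain ⟨⟨c1, c2⟩, ⟨c3, c4⟩⟩ := w13
  obtain ⟨⟨d1, d2⟩, ⟨d3, d4⟩⟩ := w24
  obtain ⟨⟨e1, e2⟩, ⟨e3, e4⟩⟩ := w23
  obtain ⟨⟨g1, g2⟩, ⟨g3, g4⟩⟩ := w14
  have x11 : x1 (k + 1) = -(1 / 2) := by linarith
  have x12 : x1 (k + 2) = -(1 / 2) := by linarith
  have x21 : x2 (k + 1) = 1 / 2 := by linarith
  have x22 : x2 (k + 2) = 1 / 2 := by linarith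
  have x31 : x3 (k + 1) = -(1 / 2) := by linarith
  have x32 : x3 (k + 2) = 1 / 2 := by linarith
  have x41 : x4 (k + 1) = 1 / 2 := by linarith
  have x42 : x4 (k + 2) = -(1 / 2) := by linarith
  intro z hz
  have h1 := H.det _ hx2 _ hx1 _ hz
  have h2 := H.det _ hx3 _ hx4 _ hz
  rw [D_cyc k, k1, k2, x11, x12, x21, x22, abs_le] at h1
  rw [D_cyc k, k3, k4, x31, x32, x41, x42, abs_le] at h2
  rcases abs_cases (z (k + 1)) with ⟨q1, _⟩ | ⟨q1, _⟩ <;>
    rcases abs_cases (z (k + 2)) with ⟨q2, _⟩ | ⟨q2, _⟩ <;> rw [q1, q2] <;> linarith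

end Pool.Agent.Lib.MP_5e7226_co.CS
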