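import Pool.Agent.Lib.MP_5e7226_co.CS.Final
import Pool.Agent.Lib.MP_5e7226_co.HT.HalfTurn

/-! All affine symmetries in dimension three. -/

set_option autoImplicit false

open Set Filter Topology

namespace Pool.Agent.Lib.MP_5e7226_co.CS

open Pool.Agent.Lib.MP_5e7226_co

section

variable {V : Type*} [NormedAddCommGroup V] [NormedSpace ℝ V] [FiniteDimensional ℝ V]

/-- A linear involution of a three-dimensional space with nonpositive determinant is `-1` or a
reflection in a plane. -/
theorem involution_cases (hdim : Module.finrank ℝ V = 3)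
    {A : V →ₗ[ℝ] V} (hA2 : ∀ x, A (A x) = x) (hdet : LinearMap.det A ≤ 0) :
    (∀ x, A x = -x) ∨ ∃ (e : V →ₗ[ℝ] ℝ) (v : V), e v = 1 ∧ ∀ x, A x = x - (2 * e x) • v := by
  set U : Submodule ℝ V := LinearMap.ker (A + LinearMap.id) with hU
  set W : Submodule ℝ V := LinearMap.ker (A - LinearMap.id) with hW
  have hUm : ∀ x : V, x ∈ U ↔ A x = -x := by
    intro x
    rw [hU, LinearMap.mem_ker, LinearMap.add_apply, LinearMap.id_apply, add_eq_zero_iff_eq_neg]
  have hWm : ∀ x : V, x ∈ W ↔ A x = x := by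
    intro x
    rw [hW, LinearMap.mem_ker, LinearMap.sub_apply, LinearMap.id_apply, sub_eq_zero]
  have hcompl : IsCompl U W := by
    constructor
    · rw [Submodule.disjoint_def]
      intro x h1 h2
      rw [hUm] at h1
      rw [hWm] at h2
      rw [h1] at h2
      have h3 : (2 : ℝ) • x = 0 := by
        rw [two_smul]
        nth_rewrite 1 [← h2]
        abel
      rcases smul_eq_zero.mp h3 with h | h
      · norm_num at h
      · exact h
    · rw [codisjoint_iff, Submodule.eq_top_iff']
      intro x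
      rw [Submodule.mem_sup]
      refine ⟨(1 / 2 : ℝ) • (x - A x), ?_, (1 / 2 : ℝ) • (x + A x), ?_, ?_⟩
      · rw [hUm, map_smul, map_sub, hA2, ← smul_neg, neg_sub]
      · rw [hWm, map_smul, map_add, hA2, add_comm]
      · rw [← smul_add]
        have : x - A x + (x + A x) = (2 : ℝ) • x := by rw [two_smul]; abel
        rw [this, smul_smul]; norm_num
  let e := Submodule.prodEquivOfIsCompl U W hcompl
  have he : ∀ y : U × W, e y = (y.1 : V) + (y.2 : V) := fun y => by
    simp [e]
  have hconj : A = (e : (U × W) →ₗ[ℝ] V) ∘ₗ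
      (LinearMap.prodMap (-LinearMap.id : U →ₗ[ℝ] U) (LinearMap.id : W →ₗ[ℝ] W)) ∘ₗ
        (e.symm : V →ₗ[ℝ] U × W) := by
    ext x
    obtain ⟨y, rfl⟩ := e.surjective x
    simp only [LinearMap.comp_apply, LinearEquiv.coe_coe, e.symm_apply_apply]
    rw [he, he, map_add]
    simp only [LinearMap.prodMap_apply, LinearMap.neg_apply, LinearMap.id_apply]
    rw [(hUm _).mp y.1.2, (hWm _).mp y.2.2]
    simp
  have hd : LinearMap.det A = (-1) ^ Module.finrank ℝ U := by
    rw [hconj]
    have h1 := LinearMap.det_conj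
      (LinearMap.prodMap (-LinearMap.id : U →ₗ[ℝ] U) (LinearMap.id : W →ₗ[ℝ] W)) e
    rw [h1, LinearMap.det_prodMap, LinearMap.det_id, mul_one]
    have h2 : (-LinearMap.id : U →ₗ[ℝ] U) = (-1 : ℝ) • LinearMap.id := by
      ext x; simp
    rw [h2, LinearMap.det_smul, LinearMap.det_id, mul_one]
  have hle : Module.finrank ℝ U ≤ 3 := by rw [← hdim]; exact Submodule.finrank_le U
  have hcase : Module.finrank ℝ U = 1 ∨ Module.finrank ℝ U = 3 := by
    rw [hd] at hdet
    interval_cases h : Module.finrank ℝ U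
    · norm_num at hdet
    · left; rfl
    · norm_num at hdet
    · right; rfl
  rcases hcase with h1 | h3
  · right
    let ψ : U ≃ₗ[ℝ] ℝ := LinearEquiv.ofFinrankEq _ _ (by rw [h1]; simp)
    let π : V →ₗ[ℝ] U :=
      { toFun := fun x => ⟨(1 / 2 : ℝ) • (x - A x), by
          rw [hUm, map_smul, map_sub, hA2, ← smul_neg, neg_sub]⟩
        map_add' := fun x y => by
          ext
          simp only [map_add, Submodule.coe_add, ← smul_add]
          congr 1
          abel
        map_smul' := fun c x => by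
          ext
          simp only [map_smul, RingHom.id_apply, SetLike.val_smul, ← smul_sub]
          rw [smul_comm] }
    have hπ : ∀ x, (π x : V) = (1 / 2 : ℝ) • (x - A x) := fun x => rfl
    refine ⟨ψ.toLinearMap ∘ₗ π, (ψ.symm 1 : V), ?_, ?_⟩
    · have h4 : A (ψ.symm 1 : V) = -(ψ.symm 1 : V) := (hUm _).1 (ψ.symm 1).2
      have h5 : π (ψ.symm 1 : V) = ψ.symm 1 := by
        apply Subtype.ext
        rw [hπ, h4, sub_neg_eq_add, ← two_smul ℝ, smul_smul]
        norm_num
      simp only [LinearMap.comp_apply, h5]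
      exact ψ.apply_symm_apply 1
    · intro x
      have h4 : ψ (π x) • ψ.symm 1 = π x := by
        rw [← map_smul, smul_eq_mul, mul_one, ψ.symm_apply_apply]
      have h5 : ψ (π x) • (ψ.symm 1 : V) = (1 / 2 : ℝ) • (x - A x) := by
        rw [← hπ, ← h4]; simp
      simp only [LinearMap.comp_apply]
      change A x = x - (2 * ψ (π x)) • (ψ.symm 1 : V)
      rw [mul_smul, h5, smul_smul]
      norm_num
  · left
    have htop : U = ⊤ := Submodule.eq_top_of_finrank_eq (by rw [h3, hdim])
    intro x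
    rw [← hUm, htop]
    trivial

/-- Convex bodies in three-dimensional space with a plane reflection or central symmetry. -/
theorem sep_of_neg_involution (hdim : Module.finrank ℝ V = 3) {K : Set V} (hconv : Convex ℝ K)
    (hK : IsCompact K) (h0 : (0 : V) ∈ interior K) {A : V →ₗ[ℝ] V}
    (hA : A '' K = K) (hA2 : ∀ x, A (A x) = x) (hdet : LinearMap.det A ≤ 0) : Sep K 8 := by
  have hAK : ∀ x ∈ K, A x ∈ K := fun x hx => by rw [← hA]; exact ⟨x, hx, rfl⟩
  rcases involution_cases hdim hA2 hdet with h | ⟨e, v, hev, h⟩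
  · exact sep_central hdim hconv hK h0 (fun x hx => by rw [← h]; exact hAK x hx)
  · let e' : V →L[ℝ] ℝ := LinearMap.toContinuousLinearMap e
    have he' : ∀ x, e' x = e x := fun x => rfl
    apply PS.sep_of_shadow hdim hconv hK h0 e'
    left
    refine ⟨v, by rw [he', hev]; exact one_ne_zero, fun x hx => ⟨-e x, ?_, ?_⟩⟩
    · have h1 := hconv hx (hAK x hx) (show (0 : ℝ) ≤ 1 / 2 by norm_num)
        (show (0 : ℝ) ≤ 1 / 2 by norm_num) (by norm_num)
      convert h1 using 1
      rw [h, smul_sub, smul_smul, ← add_sub_assoc, ← add_smul, neg_smul, ← sub_eq_add_neg]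
      norm_num
      ring_nf
    · rw [he', map_add, map_smul, hev]; simp

end

/-- Every convex body in three-dimensional space with a nontrivial affine symmetry. -/
theorem sep_all (K : Set (EuclideanSpace ℝ (Fin 3))) (hconv : Convex ℝ K) (hK : IsCompact K)
    (o : EuclideanSpace ℝ (Fin 3)) (ho : o ∈ interior K)
    (A : EuclideanSpace ℝ (Fin 3) →ₗ[ℝ] EuclideanSpace ℝ (Fin 3))
    (hA : (fun x => o + A (x - o)) '' K = K) (hne : ∃ x, A x ≠ x) :
    Sep ((fun x => x - o) '' K) 8 := by
  by_cases hA2 : ∃ x, A (A x) ≠ x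
  · exact affine_sep_full halfTurn hconv hK o ho A hA (Or.inr hA2)
  by_cases hdet : 0 < LinearMap.det A
  · exact affine_sep_full halfTurn hconv hK o ho A hA (Or.inl ⟨hdet, hne⟩)
  push Not at hA2 hdet
  set K₁ : Set (EuclideanSpace ℝ (Fin 3)) := (fun x => x - o) '' K with hK₁
  have hK₁c : IsCompact K₁ := hK.image (continuous_id.sub continuous_const)
  have hK₁i : (0 : EuclideanSpace ℝ (Fin 3)) ∈ interior K₁ := by
    have h := (Homeomorph.subRight o).isOpenMap.image_interior_subset K
    apply h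
    exact ⟨o, ho, by simp⟩
  have hK₁v : Convex ℝ K₁ := by
    have h : Convex ℝ ((fun x => x + -o) '' K) := PS.convex_translate hconv (-o)
    have e : K₁ = (fun x => x + -o) '' K := by
      rw [hK₁]
      apply image_congr
      intro x _
      exact sub_eq_add_neg x o
    rw [e]
    exact h
  have hA₁ : A '' K₁ = K₁ := by
    rw [hK₁]
    conv_rhs => rw [← hA]
    rw [← image_comp, ← image_comp]
    apply image_congr
    intro x _
    simp
  exact sep_of_neg_involution (by simp) hK₁v hK₁c hK₁i hA₁ hA2 hdet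

/-- The final theorem. -/
theorem final (K : Set (EuclideanSpace ℝ (Fin 3)))
    (hconv : Convex ℝ K) (hK : IsCompact K)
    (o : EuclideanSpace ℝ (Fin 3)) (ho : o ∈ interior K)
    (A : EuclideanSpace ℝ (Fin 3) → EuclideanSpace ℝ (Fin 3)) (hlin : IsLinearMap ℝ A)
    (hA : (fun x => o + A (x - o)) '' K = K) (h : A ≠ id) :
    ∃ w : Fin 8 → EuclideanSpace ℝ (Fin 3), ∃ b : Fin 8 → ℝ,
      ∀ u x₀ : EuclideanSpace ℝ (Fin 3), u ≠ 0 → x₀ ∈ K →
        (∀ y ∈ K, inner ℝ u y ≤ inner ℝ u x₀) →
          ∃ i, inner ℝ (w i) o < b i ∧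
            ∀ x ∈ K, inner ℝ u x = inner ℝ u x₀ → b i < inner ℝ (w i) x :=
  sep_to_hyperplanes hK o (sep_all K hconv hK o ho (hlin.mk' A) hA (Function.ne_iff.mp h))

end Pool.Agent.Lib.MP_5e7226_co.CS
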