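import Pool.Agent.Lib.MP_5e7226_co.CS.Main

/-! Centrally symmetric bodies in dimension three, and the theorem on affine symmetries. -/

set_option autoImplicit false

open Set Filter Topology

namespace Pool.Agent.Lib.MP_5e7226_co.CS

open Pool.Agent.Lib.MP_5e7226_co

/-- the linear map with given columns -/
noncomputable def cols (a b c : V3) : V3 →ₗ[ℝ] V3 where
  toFun := fun x => x 0 • a + x 1 • b + x 2 • c
  map_add' := fun x y => by
    simp only [Pi.add_apply, add_smul]; abel
  map_smul' := fun r x => by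
    simp only [Pi.smul_apply, smul_eq_mul, mul_smul, smul_add, RingHom.id_apply]

lemma cols_apply (a b c x : V3) : cols a b c x = x 0 • a + x 1 • b + x 2 • c := rfl

lemma D_cols (a b c x y z : V3) :
    D (cols a b c x) (cols a b c y) (cols a b c z) = D a b c * D x y z := by
  simp only [cols_apply, D, Pi.add_apply, Pi.smul_apply, smul_eq_mul]
  ring

lemma D_cont : Continuous (fun p : V3 × V3 × V3 => D p.1 p.2.1 p.2.2) := by
  unfold D
  fun_prop

lemma cols_inj {a b c : V3} (h : D a b c ≠ 0) : Function.Injective (cols a b c) := by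
  rw [injective_iff_map_eq_zero]
  intro x hx
  rw [cols_apply] at hx
  have h0 : x 0 * D a b c = 0 := by
    have : D (x 0 • a + x 1 • b + x 2 • c) b c = x 0 * D a b c := by
      simp only [D, Pi.add_apply, Pi.smul_apply, smul_eq_mul]; ring
    rw [← this, hx]; simp [D]
  have h1 : x 1 * D a b c = 0 := by
    have : D a (x 0 • a + x 1 • b + x 2 • c) c = x 1 * D a b c := by
      simp only [D, Pi.add_apply, Pi.smul_apply, smul_eq_mul]; ring
    rw [← this, hx]; simp [D]
  have h2 : x 2 * D a b c = 0 := by
    have : D a b (x 0 • a + x 1 • b + x 2 • c) = x 2 * D a b c := by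
      simp only [D, Pi.add_apply, Pi.smul_apply, smul_eq_mul]; ring
    rw [← this, hx]; simp [D]
  ext i
  fin_cases i
  · exact (mul_eq_zero.1 h0).resolve_right h
  · exact (mul_eq_zero.1 h1).resolve_right h
  · exact (mul_eq_zero.1 h2).resolve_right h

theorem sep_central3 {K : Set V3} (hconv : Convex ℝ K) (hK : IsCompact K)
    (h0 : (0 : V3) ∈ interior K) (hs : ∀ x ∈ K, -x ∈ K) : Sep K 8 := by
  have h00 := interior_subset h0
  obtain ⟨⟨a, b, c⟩, ⟨ha, hb, hc⟩, hmax⟩ := (hK.prod (hK.prod hK)).exists_isMaxOn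
    ⟨(0, 0, 0), ⟨h00, h00, h00⟩⟩ (D_cont.abs).continuousOn
  simp only at ha hb hc
  -- the maximum is positive
  have hpos : 0 < |D a b c| := by
    obtain ⟨r, hr, hball⟩ := Metric.isOpen_iff.mp isOpen_interior _ h0
    have hm : ∀ i, (r / 2) • ev i ∈ K := by
      intro i
      apply interior_subset
      apply hball
      rw [Metric.mem_ball, dist_zero_right, norm_smul, Real.norm_eq_abs, abs_of_pos (by positivity)]
      have : ‖ev i‖ = 1 := by simp [ev, Pi.norm_single]
      rw [this]; linarith
    have h1 := hmax (show ((r / 2) • ev 0, (r / 2) • ev 1, (r / 2) • ev 2) ∈ K ×ˢ (K ×ˢ K) from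
      ⟨hm 0, hm 1, hm 2⟩)
    simp only [mem_ofPred_eq] at h1
    refine lt_of_lt_of_le ?_ h1
    have : D ((r / 2) • ev 0) ((r / 2) • ev 1) ((r / 2) • ev 2) = (r / 2) ^ 3 := by
      simp [D, ev]; ring
    rw [this]; positivity
  have hne : D a b c ≠ 0 := abs_pos.1 hpos
  let T₀ : V3 ≃ₗ[ℝ] V3 := LinearEquiv.ofInjectiveEndo (cols a b c) (cols_inj hne)
  have hT₀ : ∀ x, T₀ x = cols a b c x := fun x => rfl
  let T := T₀.toContinuousLinearEquiv
  have hT : ∀ x, T x = cols a b c x := fun x => rfl
  have hmem : ∀ x, x ∈ T.symm '' K ↔ T x ∈ K := by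
    intro x
    constructor
    · rintro ⟨y, hy, rfl⟩
      rw [T.apply_symm_apply]; exact hy
    · intro hx
      exact ⟨T x, hx, T.symm_apply_apply x⟩
  have HC : CA (T.symm '' K) := by
    constructor
    · intro x hx
      rw [hmem] at hx ⊢
      rw [map_neg]
      exact hs _ hx
    · intro i
      rw [hmem, hT, cols_apply]
      fin_cases i
      · simpa [ev] using ha
      · simpa [ev] using hb
      · simpa [ev] using hc
    · intro x hx y hy z hz
      rw [hmem] at hx hy hz
      have h1 := hmax (show (T x, T y, T z) ∈ K ×ˢ (K ×ˢ K) from ⟨hx, hy, hz⟩)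
      simp only [mem_ofPred_eq, hT, D_cols, abs_mul] at h1
      by_contra hlt
      push Not at hlt
      nlinarith
  have h1 : Sep (T.symm '' K) 8 := by
    apply sep_CA HC
    · exact hconv.linear_image T.symm.toLinearMap
    · exact hK.image T.symm.continuous
    · have h := T.symm.toHomeomorph.isOpenMap.image_interior_subset K
      apply h
      exact ⟨0, h0, by simp⟩
  have h2 := h1.image T
  have h3 : T '' (T.symm '' K) = K := by
    rw [← image_comp]
    simp
  rwa [h3] at h2

theorem sep_central {V : Type*} [NormedAddCommGroup V] [NormedSpace ℝ V]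
    [FiniteDimensional ℝ V] (hdim : Module.finrank ℝ V = 3) {K : Set V} (hconv : Convex ℝ K)
    (hK : IsCompact K) (h0 : (0 : V) ∈ interior K) (hs : ∀ x ∈ K, -x ∈ K) : Sep K 8 := by
  let T : V ≃L[ℝ] V3 := (LinearEquiv.ofFinrankEq V V3 (by rw [hdim]; simp)).toContinuousLinearEquiv
  have h1 : Sep (T '' K) 8 := by
    apply sep_central3
    · exact hconv.linear_image T.toLinearMap
    · exact hK.image T.continuous
    · have h := T.toHomeomorph.isOpenMap.image_interior_subset K
      apply h
      exact ⟨0, h0, by simp⟩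
    · rintro _ ⟨x, hx, rfl⟩
      exact ⟨-x, hs x hx, by rw [map_neg]⟩
  have h2 := h1.image T.symm
  have h3 : T.symm '' (T '' K) = K := by
    rw [← image_comp]
    simp
  rwa [h3] at h2

end Pool.Agent.Lib.MP_5e7226_co.CS
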