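import Pool.Agent.Lib.MP_5e7226_co.CS.Alg
import Pool.Agent.Lib.MP_5e7226_co.PS.Final

/-! Centrally symmetric bodies in dimension three: the eight planes. -/

set_option autoImplicit false

open Set Filter Topology

namespace Pool.Agent.Lib.MP_5e7226_co.CS

open Pool.Agent.Lib.MP_5e7226_co

/-! ### Inequalities -/

/-- all coefficients positive -/
lemma num1 {s a b c x y z : ℝ} (hs : 0 < s) (ha : 0 < a) (hb : 0 < b) (hc : 0 < c)
    (has : a ≤ s) (hbs : b ≤ s) (hcs : c ≤ s) (hx : |x| ≤ 1) (hy : |y| ≤ 1) (hz : |z| ≤ 1)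
    (h : a * x + b * y + c * z = s) : 0 < x + y + z := by
  rw [abs_le] at hx hy hz
  -- at most one of `x, y, z` is negative
  have key : ∀ {a b c x y z : ℝ}, 0 < a → 0 < b → 0 < c → a ≤ s → b ≤ s → c ≤ s → -1 ≤ x →
      x ≤ 1 → y ≤ 1 → z ≤ 1 → a * x + b * y + c * z = s → x < 0 → 0 < x + y + z := by
    intro a b c x y z ha hb hc has hbs hcs hx1 hx2 hy2 hz2 h hx0
    have hy0 : 0 ≤ y := by
      by_contra hlt
      push Not at hlt
      have h1 : c * z ≤ c := by nlinarith
      have h2 : a * x < 0 := by nlinarith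
      have h3 : b * y < 0 := by nlinarith
      linarith
    have hz0 : 0 ≤ z := by
      by_contra hlt
      push Not at hlt
      have h1 : b * y ≤ b := by nlinarith
      have h2 : a * x < 0 := by nlinarith
      have h3 : c * z < 0 := by nlinarith
      linarith
    have h1 : b * y ≤ s * y := mul_le_mul_of_nonneg_right hbs hy0
    have h2 : c * z ≤ s * z := mul_le_mul_of_nonneg_right hcs hz0
    have h3 : a * x < 0 := by nlinarith
    have h4 : s * (y + z) > s := by linarith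
    have h5 : y + z > 1 := by
      by_contra hle
      push Not at hle
      nlinarith
    linarith
  by_cases hx0 : x < 0
  · exact key ha hb hc has hbs hcs hx.1 hx.2 hy.2 hz.2 h hx0
  by_cases hy0 : y < 0
  · have := key hb ha hc hbs has hcs hy.1 hy.2 hx.2 hz.2 (by linarith) hy0
    linarith
  by_cases hz0 : z < 0
  · have := key hc ha hb hcs has hbs hz.1 hz.2 hx.2 hy.2 (by linarith) hz0
    linarith
  push Not at hx0 hy0 hz0
  by_contra hle
  push Not at hle
  have h1 : x = 0 := by linarith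
  have h2 : y = 0 := by linarith
  have h3 : z = 0 := by linarith
  rw [h1, h2, h3] at h
  linarith

/-- one coefficient zero -/
lemma num2 {s b c x y z : ℝ} (hs : 0 < s) (hb : 0 < b) (hc : 0 < c)
    (hbs : b ≤ s) (hcs : c ≤ s) (hx : |x| ≤ 1) (hy : |y| ≤ 1) (hz : |z| ≤ 1)
    (h : b * y + c * z = s) (hle : x + y + z ≤ 0) :
    x = -1 ∧ y + z = 1 ∧ (b < s → y = 0) ∧ (c < s → z = 0) := by
  rw [abs_le] at hx hy hz
  have hy0 : 0 ≤ y := by
    by_contra hlt
    push Not at hlt
    have h1 : c * z ≤ c := by nlinarith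
    have h3 : b * y < 0 := by nlinarith
    linarith
  have hz0 : 0 ≤ z := by
    by_contra hlt
    push Not at hlt
    have h1 : b * y ≤ b := by nlinarith
    have h3 : c * z < 0 := by nlinarith
    linarith
  have h1 : b * y ≤ s * y := mul_le_mul_of_nonneg_right hbs hy0
  have h2 : c * z ≤ s * z := mul_le_mul_of_nonneg_right hcs hz0
  have h4 : s * (y + z) ≥ s := by linarith
  have h5 : y + z ≥ 1 := by
    by_contra hlt
    push Not at hlt
    nlinarith
  have h6 : y + z = 1 := by linarith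
  have h7 : b * y = s * y := by nlinarith
  have h8 : c * z = s * z := by nlinarith
  refine ⟨by linarith, h6, fun hlt => ?_, fun hlt => ?_⟩
  · have : (s - b) * y = 0 := by linarith
    rcases mul_eq_zero.1 this with h9 | h9
    · linarith
    · exact h9
  · have : (s - c) * z = 0 := by linarith
    rcases mul_eq_zero.1 this with h9 | h9
    · linarith
    · exact h9

/-- near an edge midpoint -/
lemma num3 {s a b c x y z ε : ℝ} (hs : 0 < s) (ha : 0 ≤ a) (hb : s < 2 * b) (hc : s < 2 * c)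
    (has : a ≤ s) (hbs : b ≤ s) (hcs : c ≤ s) (hx : |x| ≤ 1) (hy : |y| ≤ 1) (hz : |z| ≤ 1)
    (h : a * x + b * y + c * z = s) (hε : 0 < ε) (hε2 : ε < 1 / 2) :
    0 < (1 - ε) * x + y + z := by
  rw [abs_le] at hx hy hz
  have hb0 : 0 < b := by linarith
  have hc0 : 0 < c := by linarith
  by_cases hx0 : x < 0
  · have hy0 : 0 ≤ y := by
      by_contra hlt
      push Not at hlt
      have h1 : c * z ≤ c := by nlinarith
      have h2 : a * x ≤ 0 := by nlinarith
      have h3 : b * y < 0 := by nlinarith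
      linarith
    have hz0 : 0 ≤ z := by
      by_contra hlt
      push Not at hlt
      have h1 : b * y ≤ b := by nlinarith
      have h2 : a * x ≤ 0 := by nlinarith
      have h3 : c * z < 0 := by nlinarith
      linarith
    have h1 : b * y ≤ s * y := mul_le_mul_of_nonneg_right hbs hy0
    have h2 : c * z ≤ s * z := mul_le_mul_of_nonneg_right hcs hz0
    have h3 : a * x ≤ 0 := by nlinarith
    have h4 : s * (y + z) ≥ s := by linarith
    have h5 : y + z ≥ 1 := by
      by_contra hlt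
      push Not at hlt
      nlinarith
    have h6 : (1 - ε) * x ≥ -(1 - ε) := by nlinarith
    linarith
  push Not at hx0
  have h1x : a * x ≤ s * x := mul_le_mul_of_nonneg_right has hx0
  have side : ∀ {b c y z : ℝ}, s < 2 * b → s < 2 * c → c ≤ s → -1 ≤ y → z ≤ 1 →
      a * x + b * y + c * z = s → y < 0 → 0 < (1 - ε) * x + y + z := by
    intro b c y z hb hc hcs hy1 hz1 h hy0
    have hb0 : 0 < b := by linarith
    have hc0 : 0 < c := by linarith
    have hz0 : 0 ≤ z := by
      by_contra hlt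
      push Not at hlt
      have h2 : c * z < 0 := by nlinarith
      have h3 : b * y < 0 := by nlinarith
      have h4 : a * x ≤ s := by nlinarith
      linarith
    have h2 : c * z ≤ s * z := mul_le_mul_of_nonneg_right hcs hz0
    have h3 : b * y ≤ s / 2 * y := by nlinarith
    have h4 : s * (x + z) ≥ s * (1 - y / 2) := by nlinarith
    have h5 : x + z ≥ 1 - y / 2 := by
      by_contra hlt
      push Not at hlt
      nlinarith
    have h6 : ε * x ≤ ε := by nlinarith
    nlinarith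
  by_cases hy0 : y < 0
  · exact side hb hc hcs hy.1 hz.2 h hy0
  by_cases hz0 : z < 0
  · have := side hc hb hbs hz.1 hy.2 (by linarith) hz0
    linarith
  push Not at hy0 hz0
  by_contra hle
  push Not at hle
  have h1 : 0 ≤ (1 - ε) * x := mul_nonneg (by linarith) hx0
  have h2 : y = 0 := by linarith
  have h3 : z = 0 := by linarith
  have h4 : (1 - ε) * x = 0 := by linarith
  have h5 : x = 0 := by
    rcases mul_eq_zero.1 h4 with h5 | h5
    · linarith
    · exact h5
  rw [h2, h3, h5] at h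
  linarith

/-! ### Functionals in coordinates -/

lemma apply_cyc {F : Type*} [FunLike F V3 ℝ] [LinearMapClass F ℝ V3 ℝ] (f : F) (x : V3)
    (i : Fin 3) : f x = f (ev i) * x i + f (ev (i + 1)) * x (i + 1) +
      f (ev (i + 2)) * x (i + 2) := by
  have hx : x = x i • ev i + x (i + 1) • ev (i + 1) + x (i + 2) • ev (i + 2) := by
    ext j
    have hj : j = i ∨ j = i + 1 ∨ j = i + 2 := by
      fin_cases i <;> fin_cases j <;> decide
    rcases hj with rfl | rfl | rfl
    · simp [ev_self, ev_ne (fin_n1 j).symm, ev_ne (fin_n2 j).symm]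
    · simp [ev_self, ev_ne (fin_n1 i), ev_ne (fin_n3 i)]
    · simp [ev_self, ev_ne (fin_n2 i), ev_ne (fin_n3 i).symm]
  conv_lhs => rw [hx]
  simp only [map_add, map_smul, smul_eq_mul]
  ring

open Classical in
/-- the coefficient of the perturbation -/
noncomputable def tc (K : Set V3) (σ : V3) (i : Fin 3) : ℝ := if Tr K i σ then 1 else 0

/-- the eight functionals -/
noncomputable def W (K : Set V3) (σ : V3) (ε : ℝ) : V3 →L[ℝ] ℝ :=
  ∑ i : Fin 3, (σ i * (1 - ε * tc K σ i)) • (ContinuousLinearMap.proj i : V3 →L[ℝ] ℝ)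

lemma W_apply (K : Set V3) (σ : V3) (ε : ℝ) (x : V3) :
    W K σ ε x = ∑ i : Fin 3, σ i * (1 - ε * tc K σ i) * x i := by
  simp [W]

lemma sum_cyc (g : Fin 3 → ℝ) (i : Fin 3) : ∑ j : Fin 3, g j = g i + g (i + 1) + g (i + 2) := by
  rw [Fin.sum_univ_three]
  fin_cases i
  · rfl
  · have h1 : ((1 : Fin 3) + 1) = 2 := rfl
    have h2 : ((1 : Fin 3) + 2) = 0 := rfl
    simp only [Fin.mk_one, h1, h2]
    ring
  · have h1 : ((2 : Fin 3) + 1) = 0 := rfl
    have h2 : ((2 : Fin 3) + 2) = 1 := rfl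
    have h3 : (⟨2, by decide⟩ : Fin 3) = 2 := rfl
    simp only [h1, h2, h3]
    ring

/-- a face illuminated by the unperturbed functional -/
lemma loc_unpert {K : Set V3} (hK : IsCompact K) {σ : V3} (hσ : IsSgn σ) {f₀ : V3 →L[ℝ] ℝ}
    (h : ∀ x ∈ face K f₀, 0 < ∑ i : Fin 3, σ i * x i) :
    ∀ᶠ z : ℝ × (V3 →L[ℝ] ℝ) in 𝓝 (0, f₀), 0 < z.1 →
      ∃ σ, IsSgn σ ∧ ∀ x ∈ face K z.2, 0 < W K σ z.1 x := by
  have := eventually_face hK (0 : ℝ) f₀ (fun ε _ x => 0 < W K σ ε x) (by
    intro x hx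
    have hc : ContinuousAt (fun z : (ℝ × (V3 →L[ℝ] ℝ)) × V3 =>
        ∑ i : Fin 3, σ i * (1 - z.1.1 * tc K σ i) * z.2 i) (((0 : ℝ), f₀), x) := by
      apply Continuous.continuousAt
      apply continuous_finsetSum
      intro i _
      have h1 : Continuous (fun z : (ℝ × (V3 →L[ℝ] ℝ)) × V3 => z.2 i) :=
        (continuous_apply i).comp continuous_snd
      have h2 : Continuous (fun z : (ℝ × (V3 →L[ℝ] ℝ)) × V3 => z.1.1) :=
        continuous_fst.comp continuous_fst
      fun_prop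
    have h0 : (fun z : (ℝ × (V3 →L[ℝ] ℝ)) × V3 =>
        ∑ i : Fin 3, σ i * (1 - z.1.1 * tc K σ i) * z.2 i) (((0 : ℝ), f₀), x) =
        ∑ i : Fin 3, σ i * x i := by simp
    have hev := hc.eventually (lt_mem_nhds (show (0 : ℝ) < (fun z : (ℝ × (V3 →L[ℝ] ℝ)) × V3 =>
        ∑ i : Fin 3, σ i * (1 - z.1.1 * tc K σ i) * z.2 i) (((0 : ℝ), f₀), x) by
          rw [h0]; exact h x hx))
    filter_upwards [hev] with z hz _
    rw [W_apply]
    exact hz)
  filter_upwards [this] with z hz _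
  exact ⟨σ, hσ, hz⟩

/-- basic facts on faces -/
lemma face_facts {K : Set V3} (H : CA K) {f : V3 →L[ℝ] ℝ} {x : V3} (hx : x ∈ face K f) :
    ∀ i, |f (ev i)| ≤ f x := by
  intro i
  rw [abs_le]
  constructor
  · have := hx.2 _ (H.symm _ (H.e i))
    rw [map_neg] at this
    linarith
  · exact hx.2 _ (H.e i)

lemma ne_zero_coord {f : V3 →L[ℝ] ℝ} (hf : f ≠ 0) : ∃ i, f (ev i) ≠ 0 := by
  by_contra hcon
  push Not at hcon
  apply hf
  apply ContinuousLinearMap.ext
  intro x
  rw [apply_cyc f x 0, hcon, hcon, hcon]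
  simp

lemma face_pos {K : Set V3} (H : CA K) {f : V3 →L[ℝ] ℝ} (hf : f ≠ 0) {x : V3}
    (hx : x ∈ face K f) : 0 < f x := by
  obtain ⟨i, hi⟩ := ne_zero_coord hf
  exact lt_of_lt_of_le (abs_pos.2 hi) (face_facts H hx i)

/-- the sign of a real number -/
noncomputable def sg (a : ℝ) : ℝ := if 0 ≤ a then 1 else -1

lemma sg_or (a : ℝ) : sg a = 1 ∨ sg a = -1 := by
  unfold sg; split_ifs <;> simp

lemma sg_mul (a : ℝ) : sg a * a = |a| := by
  unfold sg
  split_ifs with h
  · rw [abs_of_nonneg h, one_mul]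
  · push Not at h
    rw [abs_of_neg h]; ring

/-- products with signs -/
lemma sgn_mul_mul {s a x : ℝ} (hs : s = 1 ∨ s = -1) : (s * a) * (s * x) = a * x := by
  rcases hs with rfl | rfl <;> ring

lemma abs_sgn_mul {s x : ℝ} (hs : s = 1 ∨ s = -1) : |s * x| = |x| := by
  rcases hs with rfl | rfl <;> simp

/-- near a trouble point -/
lemma loc_trouble {K : Set V3} (H : CA K) {i : Fin 3} {σ : V3} (hσ : IsSgn σ)
    (hT : Tr K i σ) {f₀ : V3 →L[ℝ] ℝ} {s : ℝ} (hs : 0 < s) (h0 : f₀ (ev i) = 0)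
    (h1 : f₀ (ev (i + 1)) = s * σ (i + 1)) (h2 : f₀ (ev (i + 2)) = s * σ (i + 2)) :
    ∀ᶠ z : ℝ × (V3 →L[ℝ] ℝ) in 𝓝 (0, f₀), 0 < z.1 →
      ∃ σ, IsSgn σ ∧ ∀ x ∈ face K z.2, 0 < W K σ z.1 x := by
  -- closeness
  have hcl : ∀ l : Fin 3, ∀ᶠ z : ℝ × (V3 →L[ℝ] ℝ) in 𝓝 (0, f₀),
      |z.2 (ev l) - f₀ (ev l)| < s / 6 := by
    intro l
    have hc : Continuous (fun z : ℝ × (V3 →L[ℝ] ℝ) => |z.2 (ev l) - f₀ (ev l)|) := by
      have h3 : Continuous (fun z : ℝ × (V3 →L[ℝ] ℝ) => z.2 (ev l)) :=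
        (ContinuousLinearMap.apply ℝ ℝ (ev l)).continuous.comp continuous_snd
      exact (h3.sub continuous_const).abs
    have h4 := hc.continuousAt (x := (0, f₀))
    apply h4.eventually (gt_mem_nhds _)
    simp only [sub_self, abs_zero]
    positivity
  have hε : ∀ᶠ z : ℝ × (V3 →L[ℝ] ℝ) in 𝓝 (0, f₀), z.1 < 1 / 2 := by
    have h4 := (continuous_fst (X := ℝ) (Y := V3 →L[ℝ] ℝ)).continuousAt (x := (0, f₀))
    apply h4.eventually (gt_mem_nhds _)
    norm_num
  filter_upwards [hcl i, hcl (i + 1), hcl (i + 2), hε] with z c0 c1 c2 hz hzpos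
  obtain ⟨ε, f⟩ := z
  simp only at c0 c1 c2 hz hzpos ⊢
  -- the sign pattern
  set τ : V3 := Function.update σ i (sg (f (ev i))) with hτ
  have τi : τ i = sg (f (ev i)) := by simp [hτ]
  have τ1 : τ (i + 1) = σ (i + 1) := Function.update_of_ne (fin_n1 i) _ _
  have τ2 : τ (i + 2) = σ (i + 2) := Function.update_of_ne (fin_n2 i) _ _
  have hτs : IsSgn τ := by
    intro j
    by_cases hj : j = i
    · subst hj; rw [τi]; exact sg_or _
    · rw [hτ, Function.update_of_ne hj]; exact hσ j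
  have hTτ : Tr K i τ := by
    unfold Tr
    rw [τ1, τ2]
    exact hT
  refine ⟨τ, hτs, fun x hx => ?_⟩
  have t0 : tc K τ i = 1 := by simp [tc, hTτ]
  have t1 : tc K τ (i + 1) = 0 := by
    rw [tc, if_neg]
    intro hT'
    exact fin_n1 i (tr_unique H hτs hT' hTτ)
  have t2 : tc K τ (i + 2) = 0 := by
    rw [tc, if_neg]
    intro hT'
    exact fin_n2 i (tr_unique H hτs hT' hTτ)
  rw [W_apply, sum_cyc _ i, t0, t1, t2]
  have b0 := H.box hx.1 i
  have b1 := H.box hx.1 (i + 1)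
  have b2 := H.box hx.1 (i + 2)
  have F := face_facts H hx
  have hfx := apply_cyc f x i
  have hf0x := apply_cyc f₀ x i
  rw [h0, h1, h2] at hf0x
  rw [h0] at c0
  rw [h1] at c1
  rw [h2] at c2
  -- the sizes
  set p0 := f (ev i) with hp0
  set p1 := f (ev (i + 1)) with hp1
  set p2 := f (ev (i + 2)) with hp2
  have σ1 := hσ (i + 1)
  have σ2 := hσ (i + 2)
  have q1 : 5 * s / 6 < σ (i + 1) * p1 := by
    rw [abs_lt] at c1
    rcases σ1 with h | h <;> rw [h] at c1 ⊢ <;> linarith [c1.1, c1.2]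
  have q2 : 5 * s / 6 < σ (i + 2) * p2 := by
    rw [abs_lt] at c2
    rcases σ2 with h | h <;> rw [h] at c2 ⊢ <;> linarith [c2.1, c2.2]
  have F0 := F i
  have F1 := F (i + 1)
  have F2 := F (i + 2)
  rw [← hp0] at F0
  rw [← hp1] at F1
  rw [← hp2] at F2
  -- `f x ≤ s + 3 * s / 6`
  have hup : f x ≤ 3 * s / 2 := by
    -- `f x = f₀ x + (f - f₀) x`
    have hf0 : s * σ (i + 1) * x (i + 1) + s * σ (i + 2) * x (i + 2) ≤ s := by
      have h5 := hT.1 x hx.1
      nlinarith
    have e0 : p0 * x i ≤ s / 6 := by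
      rw [sub_zero] at c0
      calc p0 * x i ≤ |p0 * x i| := le_abs_self _
        _ = |p0| * |x i| := abs_mul _ _
        _ ≤ s / 6 * 1 := mul_le_mul c0.le b0 (abs_nonneg _) (by positivity)
        _ = s / 6 := mul_one _
    have e1 : (p1 - s * σ (i + 1)) * x (i + 1) ≤ s / 6 := by
      calc (p1 - s * σ (i + 1)) * x (i + 1) ≤ |(p1 - s * σ (i + 1)) * x (i + 1)| := le_abs_self _
        _ = |p1 - s * σ (i + 1)| * |x (i + 1)| := abs_mul _ _
        _ ≤ s / 6 * 1 := mul_le_mul c1.le b1 (abs_nonneg _) (by positivity)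
        _ = s / 6 := mul_one _
    have e2 : (p2 - s * σ (i + 2)) * x (i + 2) ≤ s / 6 := by
      calc (p2 - s * σ (i + 2)) * x (i + 2) ≤ |(p2 - s * σ (i + 2)) * x (i + 2)| := le_abs_self _
        _ = |p2 - s * σ (i + 2)| * |x (i + 2)| := abs_mul _ _
        _ ≤ s / 6 * 1 := mul_le_mul c2.le b2 (abs_nonneg _) (by positivity)
        _ = s / 6 := mul_one _
    rw [hfx]
    linarith
  have hfpos : 0 < f x := by
    have := abs_nonneg p1
    have h6 : 5 * s / 6 < |p1| := by
      refine lt_of_lt_of_le q1 ?_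
      rw [← abs_sgn_mul (x := p1) σ1]
      exact le_abs_self _
    linarith
  have hsum : (τ i * p0) * (τ i * x i) + (τ (i + 1) * p1) * (τ (i + 1) * x (i + 1)) +
      (τ (i + 2) * p2) * (τ (i + 2) * x (i + 2)) = f x := by
    rw [sgn_mul_mul (hτs i), sgn_mul_mul (hτs (i + 1)), sgn_mul_mul (hτs (i + 2)), hfx]
  have a0 : 0 ≤ τ i * p0 := by rw [τi, sg_mul]; exact abs_nonneg _
  have l0 : τ i * p0 ≤ f x := by rw [τi, sg_mul]; exact F0
  have l1 : τ (i + 1) * p1 ≤ f x := by
    refine le_trans (le_abs_self _) ?_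
    rw [abs_sgn_mul (hτs _)]; exact F1
  have l2 : τ (i + 2) * p2 ≤ f x := by
    refine le_trans (le_abs_self _) ?_
    rw [abs_sgn_mul (hτs _)]; exact F2
  have res := num3 hfpos a0 (b := τ (i + 1) * p1) (c := τ (i + 2) * p2) (by rw [τ1]; linarith)
    (by rw [τ2]; linarith) l0 l1 l2 (x := τ i * x i) (y := τ (i + 1) * x (i + 1))
    (z := τ (i + 2) * x (i + 2)) (by rw [abs_sgn_mul (hτs _)]; exact b0)
    (by rw [abs_sgn_mul (hτs _)]; exact b1) (by rw [abs_sgn_mul (hτs _)]; exact b2) hsum hzpos hz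
  have e : τ i * (1 - ε * 1) * x i + τ (i + 1) * (1 - ε * 0) * x (i + 1) +
      τ (i + 2) * (1 - ε * 0) * x (i + 2) = (1 - ε) * (τ i * x i) + τ (i + 1) * x (i + 1) +
      τ (i + 2) * x (i + 2) := by ring
  rw [e]
  exact res

end Pool.Agent.Lib.MP_5e7226_co.CS
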