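import Pool.Agent.Lib.MP_5e7226_co.CS.Local

/-! Centrally symmetric bodies in dimension three: the main theorem. -/

set_option autoImplicit false

open Set Filter Topology

namespace Pool.Agent.Lib.MP_5e7226_co.CS

open Pool.Agent.Lib.MP_5e7226_co

/-- trouble at an axis point -/
def AxTr (K : Set V3) (k : Fin 3) : Prop :=
  ∀ s t : ℝ, (s = 1 ∨ s = -1) → (t = 1 ∨ t = -1) →
      ∃ x ∈ K, x k = 1 ∧ s * x (k + 1) + t * x (k + 2) ≤ -1

/-- a sign vector from three signs -/
lemma mk_sgn (i : Fin 3) {a b c : ℝ} (ha : a = 1 ∨ a = -1) (hb : b = 1 ∨ b = -1)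
    (hc : c = 1 ∨ c = -1) : ∃ σ : V3, IsSgn σ ∧ σ i = a ∧ σ (i + 1) = b ∧ σ (i + 2) = c := by
  refine ⟨fun j => if j = i then a else if j = i + 1 then b else c, ?_, ?_, ?_, ?_⟩
  · intro j
    simp only
    split_ifs
    · exact ha
    · exact hb
    · exact hc
  · simp
  · simp
  · simp only [fin_n2 i, (fin_n3 i).symm, if_false]

lemma hloc {K : Set V3} (H : CA K) (hK : IsCompact K) (hax : ∀ k, ¬ AxTr K k)
    (f₀ : V3 →L[ℝ] ℝ) (hf₀ : f₀ ≠ 0) :
    ∀ᶠ z : ℝ × (V3 →L[ℝ] ℝ) in 𝓝 (0, f₀), 0 < z.1 →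
      ∃ σ, IsSgn σ ∧ ∀ x ∈ face K z.2, 0 < W K σ z.1 x := by
  by_cases hZ0 : ∀ i, f₀ (ev i) ≠ 0
  · -- all coefficients nonzero
    obtain ⟨σ, hσ, s0, s1, s2⟩ := mk_sgn 0 (sg_or (f₀ (ev 0))) (sg_or (f₀ (ev (0 + 1))))
      (sg_or (f₀ (ev (0 + 2))))
    refine loc_unpert hK hσ fun x hx => ?_
    rw [sum_cyc _ 0]
    have F := face_facts H hx
    have B := H.box hx.1
    have hpos : ∀ {a b : ℝ}, a = sg b → b ≠ 0 → 0 < a * b := by
      intro a b h1 h2
      rw [h1, sg_mul]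
      exact abs_pos.2 h2
    have hle : ∀ {a b : ℝ}, a = sg b → a * b = |b| := fun h1 => by rw [h1, sg_mul]
    refine num1 (face_pos H hf₀ hx) (hpos s0 (hZ0 _)) (hpos s1 (hZ0 _)) (hpos s2 (hZ0 _))
      (by rw [hle s0]; exact F _) (by rw [hle s1]; exact F _) (by rw [hle s2]; exact F _)
      (by rw [abs_sgn_mul (hσ _)]; exact B _) (by rw [abs_sgn_mul (hσ _)]; exact B _)
      (by rw [abs_sgn_mul (hσ _)]; exact B _) ?_
    rw [sgn_mul_mul (hσ _), sgn_mul_mul (hσ _), sgn_mul_mul (hσ _), ← apply_cyc f₀ x 0]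
  push Not at hZ0
  obtain ⟨i, hi⟩ := hZ0
  by_cases hZ1 : f₀ (ev (i + 1)) ≠ 0 ∧ f₀ (ev (i + 2)) ≠ 0
  · obtain ⟨h1, h2⟩ := hZ1
    obtain ⟨σ, hσ, s0, s1, s2⟩ := mk_sgn i (Or.inl (rfl : (1 : ℝ) = 1)) (sg_or (f₀ (ev (i + 1))))
      (sg_or (f₀ (ev (i + 2))))
    obtain ⟨σ', hσ', s0', s1', s2'⟩ := mk_sgn i (Or.inr (rfl : (-1 : ℝ) = -1))
      (sg_or (f₀ (ev (i + 1)))) (sg_or (f₀ (ev (i + 2))))
    by_cases hA : ∀ x ∈ face K f₀, 0 < ∑ j : Fin 3, σ j * x j
    · exact loc_unpert hK hσ hA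
    by_cases hB : ∀ x ∈ face K f₀, 0 < ∑ j : Fin 3, σ' j * x j
    · exact loc_unpert hK hσ' hB
    push Not at hA hB
    obtain ⟨x, hx, hxle⟩ := hA
    obtain ⟨x', hx', hxle'⟩ := hB
    rw [sum_cyc _ i, s0] at hxle
    rw [sum_cyc _ i, s0', s1', s2', ← s1, ← s2] at hxle'
    set p1 := f₀ (ev (i + 1)) with hp1
    set p2 := f₀ (ev (i + 2)) with hp2
    have hs := face_pos H hf₀ hx
    have hss : f₀ x' = f₀ x := le_antisymm (hx.2 _ hx'.1) (hx'.2 _ hx.1)
    have g1 : σ (i + 1) * p1 = |p1| := by rw [s1, sg_mul]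
    have g2 : σ (i + 2) * p2 = |p2| := by rw [s2, sg_mul]
    have k1 : 0 < σ (i + 1) * p1 := by rw [g1]; exact abs_pos.2 h1
    have k2 : 0 < σ (i + 2) * p2 := by rw [g2]; exact abs_pos.2 h2
    have l1 : σ (i + 1) * p1 ≤ f₀ x := by rw [g1]; exact face_facts H hx _
    have l2 : σ (i + 2) * p2 ≤ f₀ x := by rw [g2]; exact face_facts H hx _
    have key : ∀ y ∈ face K f₀, f₀ y = f₀ x →
        (σ (i + 1) * p1) * (σ (i + 1) * y (i + 1)) + (σ (i + 2) * p2) * (σ (i + 2) * y (i + 2)) =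
          f₀ x := by
      intro y _ hyx
      rw [sgn_mul_mul (hσ _), sgn_mul_mul (hσ _), ← hyx, apply_cyc f₀ y i, hi]
      ring
    have B := H.box hx.1
    have B' := H.box hx'.1
    obtain ⟨r1, r2, r3, r4⟩ := num2 hs k1 k2 l1 l2 (x := x i) (B i)
      (by rw [abs_sgn_mul (hσ _)]; exact B _) (by rw [abs_sgn_mul (hσ _)]; exact B _)
      (key x hx rfl) (by linarith)
    obtain ⟨r1', r2', r3', r4'⟩ := num2 hs k1 k2 l1 l2 (x := -x' i)
      (by rw [abs_neg]; exact B' i)
      (by rw [abs_sgn_mul (hσ _)]; exact B' _) (by rw [abs_sgn_mul (hσ _)]; exact B' _)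
      (key x' hx' hss) (by linarith)
    have x'i : x' i = 1 := by linarith
    -- the determinants exclude `|p1| < s` and `|p2| < s`
    have a1 := H.det1 hx.1 hx'.1 (i + 1)
    have a2 := H.det1 hx.1 hx'.1 (i + 2)
    rw [fin_a, fin_b, r1, x'i, abs_le] at a1
    rw [fin_c, fin_d, r1, x'i, abs_le] at a2
    have e1 : σ (i + 1) * p1 = f₀ x := by
      refine le_antisymm l1 ?_
      by_contra hlt
      push Not at hlt
      have z1 := r3 hlt
      have z1' := r3' hlt
      rw [z1, zero_add] at r2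
      rw [z1', zero_add] at r2'
      rcases hσ (i + 2) with h | h <;> rw [h] at r2 r2' <;> linarith [a1.1, a1.2]
    have e2 : σ (i + 2) * p2 = f₀ x := by
      refine le_antisymm l2 ?_
      by_contra hlt
      push Not at hlt
      have z1 := r4 hlt
      have z1' := r4' hlt
      rw [z1, add_zero] at r2
      rw [z1', add_zero] at r2'
      rcases hσ (i + 1) with h | h <;> rw [h] at r2 r2' <;> linarith [a2.1, a2.2]
    have f1 : p1 = f₀ x * σ (i + 1) := by
      rw [← e1]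
      have := hσ.mul (i + 1)
      calc p1 = (σ (i + 1) * σ (i + 1)) * p1 := by rw [this, one_mul]
        _ = σ (i + 1) * p1 * σ (i + 1) := by ring
    have f2 : p2 = f₀ x * σ (i + 2) := by
      rw [← e2]
      have := hσ.mul (i + 2)
      calc p2 = (σ (i + 2) * σ (i + 2)) * p2 := by rw [this, one_mul]
        _ = σ (i + 2) * p2 * σ (i + 2) := by ring
    have hT : Tr K i σ := by
      refine ⟨fun y hy => ?_, ⟨x, hx.1, r1, r2⟩, ⟨x', hx'.1, x'i, r2'⟩⟩
      have h3 := hx.2 y hy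
      rw [apply_cyc f₀ y i, hi, ← hp1, ← hp2, f1, f2] at h3
      have h4 : f₀ x * (σ (i + 1) * y (i + 1) + σ (i + 2) * y (i + 2)) ≤ f₀ x * 1 := by linarith
      exact le_of_mul_le_mul_left h4 hs
    exact loc_trouble H hσ hT hs hi f1 f2
  · -- an axis point
    have hcase : ∃ k, f₀ (ev (k + 1)) = 0 ∧ f₀ (ev (k + 2)) = 0 := by
      by_cases h1 : f₀ (ev (i + 1)) = 0
      · refine ⟨i + 2, ?_, ?_⟩
        · rw [fin_c]; exact hi
        · rw [fin_d]; exact h1
      · refine ⟨i + 1, ?_, ?_⟩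
        · rw [fin_a]
          by_contra h2
          exact hZ1 ⟨h1, h2⟩
        · rw [fin_b]; exact hi
    obtain ⟨k, hk1, hk2⟩ := hcase
    have hk0 : f₀ (ev k) ≠ 0 := by
      intro h0
      apply hf₀
      apply ContinuousLinearMap.ext
      intro x
      rw [apply_cyc f₀ x k, h0, hk1, hk2]
      simp
    have hf : ∀ x, f₀ x = f₀ (ev k) * x k := by
      intro x
      rw [apply_cyc f₀ x k, hk1, hk2]; ring
    have hnot := hax k
    unfold AxTr at hnot
    push Not at hnot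
    obtain ⟨s, t, hs, ht, hst⟩ := hnot
    rcases lt_or_gt_of_ne hk0 with hneg | hpos
    · obtain ⟨σ, hσ, s0, s1, s2⟩ := mk_sgn k (Or.inr (rfl : (-1 : ℝ) = -1)) (b := -s) (c := -t)
        (by rcases hs with h | h <;> rw [h] <;> simp) (by rcases ht with h | h <;> rw [h] <;> simp)
      refine loc_unpert hK hσ fun x hx => ?_
      rw [sum_cyc _ k, s0, s1, s2]
      have hxk : x k = -1 := by
        have h1 := hx.2 _ (H.symm _ (H.e k))
        rw [map_neg, hf x] at h1
        have h3 := abs_le.1 (H.box hx.1 k)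
        nlinarith
      have h4 := hst (-x) (H.symm _ hx.1) (by simp [hxk])
      simp only [Pi.neg_apply] at h4
      rw [hxk]; linarith
    · obtain ⟨σ, hσ, s0, s1, s2⟩ := mk_sgn k (Or.inl (rfl : (1 : ℝ) = 1)) hs ht
      refine loc_unpert hK hσ fun x hx => ?_
      rw [sum_cyc _ k, s0, s1, s2]
      have hxk : x k = 1 := by
        have h1 := hx.2 _ (H.e k)
        rw [hf x] at h1
        have h3 := abs_le.1 (H.box hx.1 k)
        nlinarith
      have h4 := hst x hx.1 hxk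
      rw [hxk]; linarith

/-- the body in the coordinates of the maximal octahedron -/
theorem sep_CA {K : Set V3} (H : CA K) (hconv : Convex ℝ K) (hK : IsCompact K)
    (h0 : (0 : V3) ∈ interior K) : Sep K 8 := by
  by_cases hax : ∃ k, AxTr K k
  · obtain ⟨k, hk⟩ := hax
    have hz := axis_case H k hk
    apply PS.sep_of_shadow (by simp) hconv hK h0 (ContinuousLinearMap.proj k : V3 →L[ℝ] ℝ)
    left
    refine ⟨ev k, by simp [ev_self], fun x hx => ⟨-x k, ?_, by simp [ev_self]⟩⟩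
    -- `x - x k • ev k` is a convex combination of `± ev (k+1)`, `± ev (k+2)` and `0`
    have hz' := hz x hx
    have hsg : ∀ (j : Fin 3), sg (x j) • ev j ∈ K := by
      intro j
      rcases sg_or (x j) with h | h
      · rw [h, one_smul]; exact H.e j
      · rw [h, neg_one_smul]; exact H.symm _ (H.e j)
    have h00 : (0 : V3) ∈ K := interior_subset h0
    have e : x + -x k • ev k = (1 - |x (k + 1)| - |x (k + 2)|) • (0 : V3) +
        (|x (k + 1)| • (sg (x (k + 1)) • ev (k + 1)) +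
          |x (k + 2)| • (sg (x (k + 2)) • ev (k + 2))) := by
      have hsa : ∀ a : ℝ, |a| * sg a = a := by
        intro a
        unfold sg
        split_ifs with h
        · rw [abs_of_nonneg h, mul_one]
        · push Not at h
          rw [abs_of_neg h]; ring
      rw [smul_smul, smul_smul, hsa, hsa]
      ext j
      have hj : j = k ∨ j = k + 1 ∨ j = k + 2 := by
        clear * -
        fin_cases k <;> fin_cases j <;> decide
      rcases hj with rfl | rfl | rfl
      · simp [ev_self, ev_ne (fin_n1 j).symm, ev_ne (fin_n2 j).symm]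
      · simp [ev_self, ev_ne (fin_n1 k), ev_ne (fin_n3 k)]
      · simp [ev_self, ev_ne (fin_n2 k), ev_ne (fin_n3 k).symm]
    rw [e]
    have c1 := abs_nonneg (x (k + 1))
    have c2 := abs_nonneg (x (k + 2))
    rcases eq_or_lt_of_le (show 0 ≤ |x (k + 1)| + |x (k + 2)| by linarith) with h3 | h3
    · have h4 : |x (k + 1)| = 0 := by linarith
      have h5 : |x (k + 2)| = 0 := by linarith
      rw [h4, h5]
      simpa using h00
    · have hm := hconv (hsg (k + 1)) (hsg (k + 2))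
        (show 0 ≤ |x (k + 1)| / (|x (k + 1)| + |x (k + 2)|) by positivity)
        (show 0 ≤ |x (k + 2)| / (|x (k + 1)| + |x (k + 2)|) by positivity) (by field_simp)
      have hm2 := hconv h00 hm (show 0 ≤ 1 - (|x (k + 1)| + |x (k + 2)|) by linarith) h3.le
        (by ring)
      convert hm2 using 1
      rw [smul_add, smul_smul (|x (k + 1)| + |x (k + 2)|), smul_smul (|x (k + 1)| + |x (k + 2)|),
        mul_div_cancel₀ _ h3.ne', mul_div_cancel₀ _ h3.ne', smul_zero, smul_zero]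
  push Not at hax
  obtain ⟨ε, hε, h⟩ := exists_eps (V := V3) (P := fun ε f => 0 < ε →
      ∃ σ, IsSgn σ ∧ ∀ x ∈ face K f, 0 < W K σ ε x) (by
    rintro ε f c hc hP hε
    obtain ⟨σ, hσ, hx⟩ := hP hε
    exact ⟨σ, hσ, by rwa [face_smul K f hc]⟩) (fun f₀ hf₀ => by
    filter_upwards [hloc H hK hax f₀ hf₀] with z hz hz1 _
    exact hz hz1)
  refine Sep.of_fintype (ι := Fin 3 → Bool) (fun b => W K (fun i => if b i then 1 else -1) ε)
    (fun f hf => ?_) (by simp)
  obtain ⟨σ, hσ, hx⟩ := h f hf hε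
  refine ⟨fun i => decide (σ i = 1), ?_⟩
  have e : (fun i => if (decide (σ i = 1) : Bool) = true then (1 : ℝ) else -1) = σ := by
    ext i
    rcases hσ i with h | h
    · simp [h]
    · simp [h]; norm_num
  rw [e]
  exact hx

end Pool.Agent.Lib.MP_5e7226_co.CS
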