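import Pool.Agent.Lib.MP_5e7226_co.CS.All

/-! Affine symmetries without a prescribed fixed point, and projective symmetries. -/

set_option autoImplicit false

open Set Filter Topology

namespace Pool.Agent.Lib.MP_5e7226_co.CS

open Pool.Agent.Lib.MP_5e7226_co

/-- linear symmetries in a general three-dimensional space -/
theorem sep_sym {V : Type*} [NormedAddCommGroup V] [NormedSpace ℝ V] [FiniteDimensional ℝ V]
    (hdim : Module.finrank ℝ V = 3) {K : Set V} (hconv : Convex ℝ K)
    (hK : IsCompact K) (h0 : (0 : V) ∈ interior K) (A : V →ₗ[ℝ] V)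
    (hA : A '' K = K) (hne : ∃ x, A x ≠ x) : Sep K 8 := by
  let T : V ≃L[ℝ] EuclideanSpace ℝ (Fin 3) :=
    (LinearEquiv.ofFinrankEq V (EuclideanSpace ℝ (Fin 3)) (by rw [hdim]; simp)).toContinuousLinearEquiv
  let A' : EuclideanSpace ℝ (Fin 3) →ₗ[ℝ] EuclideanSpace ℝ (Fin 3) :=
    T.toLinearMap ∘ₗ A ∘ₗ T.symm.toLinearMap
  have hA' : ∀ x, A' x = T (A (T.symm x)) := fun x => rfl
  have h1 : Sep ((fun x => x - (0 : EuclideanSpace ℝ (Fin 3))) '' (T '' K)) 8 := by
    apply sep_all (T '' K) _ _ 0 _ A'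
    · ext z
      constructor
      · rintro ⟨_, ⟨x, hx, rfl⟩, rfl⟩
        refine ⟨A x, by rw [← hA]; exact ⟨x, hx, rfl⟩, ?_⟩
        simp only [sub_zero, zero_add, hA', T.symm_apply_apply]
      · rintro ⟨y, hy, rfl⟩
        rw [← hA] at hy
        obtain ⟨x, hx, rfl⟩ := hy
        refine ⟨T x, ⟨x, hx, rfl⟩, ?_⟩
        simp only [sub_zero, zero_add, hA', T.symm_apply_apply]
    · obtain ⟨x, hx⟩ := hne
      refine ⟨T x, fun he => hx ?_⟩
      rw [hA', T.symm_apply_apply] at he
      exact T.injective he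
    · exact hconv.linear_image T.toLinearMap
    · exact hK.image T.continuous
    · have h := T.toHomeomorph.isOpenMap.image_interior_subset K
      apply h
      exact ⟨0, h0, by simp⟩
  have h2 : (fun x => x - (0 : EuclideanSpace ℝ (Fin 3))) '' (T '' K) = T '' K := by
    simp
  rw [h2] at h1
  have h3 := h1.image T.symm
  have h4 : T.symm '' (T '' K) = K := by
    rw [← image_comp]
    simp
  rwa [h4] at h3

/-- Separation of the faces of the polar body gives illumination. -/
theorem illum_of_sep_polar {W : Type*} [NormedAddCommGroup W] [NormedSpace ℝ W]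
    [FiniteDimensional ℝ W] {L : Set W} (hc : Convex ℝ L) (h0 : (0 : W) ∈ interior L) {N : ℕ}
    (hN : 0 < N) (h : Sep (polarBody L) N) : Illum L N := by
  obtain ⟨w, hw⟩ := h
  -- the functionals are evaluations
  have hev : ∀ F : (W →L[ℝ] ℝ) →L[ℝ] ℝ, ∃ x : W, ∀ k : W →L[ℝ] ℝ, F k = k x := by
    intro F
    let F' : Module.Dual ℝ (Module.Dual ℝ W) :=
      F.toLinearMap ∘ₗ (LinearMap.toContinuousLinearMap (𝕜 := ℝ) (E := W) (F' := ℝ)).toLinearMap
    refine ⟨(Module.evalEquiv ℝ W).symm F', fun k => ?_⟩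
    have h1 := Module.apply_evalEquiv_symm_apply (R := ℝ) (M := W) (k : W →ₗ[ℝ] ℝ) F'
    have h2 : F' (k : W →ₗ[ℝ] ℝ) = F k := by
      change F (LinearMap.toContinuousLinearMap (k : W →ₗ[ℝ] ℝ)) = F k
      congr 1
    rw [← h2, ← h1]
    rfl
  choose d hd using fun i => hev (w i)
  refine ⟨fun i => -(d i), fun y hy => ?_⟩
  have hdirint : ∀ i, y ∈ interior L → ∃ t : ℝ, 0 < t ∧ y + t • -(d i) ∈ interior L := by
    intro i hyi
    have hcont : ContinuousAt (fun t : ℝ => y + t • -(d i)) 0 := by fun_prop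
    have h2 : ∀ᶠ t in 𝓝 (0 : ℝ), y + t • -(d i) ∈ interior L :=
      hcont.eventually (by simpa using isOpen_interior.mem_nhds hyi)
    rw [Metric.eventually_nhds_iff] at h2
    obtain ⟨r, hr, hr'⟩ := h2
    refine ⟨r / 2, by positivity, hr' ?_⟩
    rw [Real.dist_eq, sub_zero, abs_of_pos (by positivity)]
    linarith
  by_cases hyi : y ∈ interior L
  · exact ⟨⟨0, hN⟩, hdirint _ hyi⟩
  have hcpt : IsCompact (polarBody L) :=
    Metric.isCompact_of_isClosed_isBounded (polarBody_closed L) (polarBody_bounded h0)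
  -- the evaluation at `y`
  set F : (W →L[ℝ] ℝ) →L[ℝ] ℝ := ContinuousLinearMap.apply ℝ ℝ y with hF
  have hFa : ∀ k, F k = k y := fun k => rfl
  have hy0 : y ≠ 0 := fun he => hyi (he ▸ h0)
  have hF0 : F ≠ 0 := by
    intro h00
    apply hy0
    by_contra hne
    obtain ⟨k, -, hk⟩ := exists_dual_vector ℝ y (norm_ne_zero_iff.2 hne)
    have h1 : F k = 0 := by rw [h00]; rfl
    rw [hFa, hk] at h1
    exact hne (norm_eq_zero.1 (by simpa using h1))
  obtain ⟨i, hi⟩ := hw F hF0
  refine ⟨i, ?_⟩
  have hpol : ∀ k ∈ polarBody L, k y ≤ 1 := fun k hk => hk y hy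
  -- bipolar
  have hbip : ∀ z : W, (∀ k ∈ polarBody L, k z < 1) → z ∈ interior L := by
    intro z hz
    by_contra hzi
    obtain ⟨f, hf⟩ := geometric_hahn_banach_open_point hc.interior isOpen_interior hzi
    have hf0 : 0 < f z := by
      have := hf 0 h0
      rwa [map_zero] at this
    have hfL : ∀ x ∈ L, f x ≤ f z := by
      intro x hx
      by_contra hlt
      push Not at hlt
      -- `(1 - s) x + s 0` is interior
      obtain ⟨s, hs0, hs1, hs2⟩ : ∃ s : ℝ, 0 < s ∧ s ≤ 1 ∧ (1 - s) * f x = f z :=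
        ⟨1 - f z / f x, by
          have : f z / f x < 1 := by rw [div_lt_one (by linarith)]; exact hlt
          linarith, by
          have : 0 < f z / f x := div_pos hf0 (by linarith)
          linarith, by
          rw [sub_sub_cancel, div_mul_cancel₀]; linarith⟩
      have h1 := hc.combo_self_interior_mem_interior hx h0 (show 0 ≤ 1 - s by linarith) hs0
        (by ring)
      have h2 := hf _ h1
      rw [map_add, map_smul, map_smul, map_zero, smul_zero, add_zero, smul_eq_mul, hs2] at h2
      exact lt_irrefl _ h2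
    have h1 : (f z)⁻¹ • f ∈ polarBody L := by
      intro x hx
      simp only [FunLike.coe_smul, Pi.smul_apply, smul_eq_mul]
      rw [inv_mul_le_iff₀ hf0]
      linarith [hfL x hx]
    have h2 := hz _ h1
    simp only [FunLike.coe_smul, Pi.smul_apply, smul_eq_mul] at h2
    rw [inv_mul_cancel₀ hf0.ne'] at h2
    exact lt_irrefl _ h2
  -- the part of the polar body where `k (d i) ≤ 0`
  set C : Set (W →L[ℝ] ℝ) := polarBody L ∩ {k | k (d i) ≤ 0} with hC
  have hCc : IsCompact C := hcpt.inter_right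
    (isClosed_le (ContinuousLinearMap.apply ℝ ℝ (d i)).continuous continuous_const)
  have hClt : ∀ k ∈ C, k y < 1 := by
    rintro k ⟨hk, hkd⟩
    refine lt_of_le_of_ne (hpol k hk) fun he => ?_
    have h1 : k ∈ face (polarBody L) F := ⟨hk, fun k' hk' => by
      rw [hFa, hFa, he]; exact hpol k' hk'⟩
    have h2 := hi k h1
    rw [hd] at h2
    exact absurd h2 (not_lt.2 hkd)
  obtain ⟨η, hη, hηC⟩ : ∃ η : ℝ, 0 < η ∧ ∀ k ∈ C, k y ≤ 1 - η := by
    rcases C.eq_empty_or_nonempty with he | hne
    · exact ⟨1, one_pos, fun k hk => by rw [he] at hk; exact absurd hk (notMem_empty k)⟩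
    · obtain ⟨k, hk, hmax⟩ := hCc.exists_isMaxOn hne
        (ContinuousLinearMap.apply ℝ ℝ y).continuous.continuousOn
      refine ⟨1 - k y, by linarith [hClt k hk], fun k' hk' => ?_⟩
      have : k' y ≤ k y := hmax hk'
      linarith
  obtain ⟨R, hR⟩ := hcpt.isBounded.exists_norm_le
  have hRd : ∀ k ∈ polarBody L, |k (d i)| ≤ (|R| + 1) * ‖d i‖ := by
    intro k hk
    have h1 := k.le_opNorm (d i)
    have h2 := hR k hk
    have h3 := le_abs_self R
    have h4 := norm_nonneg (d i)
    rw [Real.norm_eq_abs] at h1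
    nlinarith
  set M : ℝ := (|R| + 1) * ‖d i‖ + 1 with hM
  have hMpos : 0 < M := by positivity
  refine ⟨η / (2 * M), by positivity, hbip _ fun k hk => ?_⟩
  rw [map_add, map_smul, map_neg, smul_eq_mul]
  have ht : 0 < η / (2 * M) := by positivity
  by_cases hkd : k (d i) ≤ 0
  · have h1 := hηC k ⟨hk, hkd⟩
    have h2 := hRd k hk
    rw [abs_le] at h2
    have h3 : η / (2 * M) * -k (d i) ≤ η / (2 * M) * M :=
      mul_le_mul_of_nonneg_left (by linarith [h2.1]) ht.le
    have h4 : η / (2 * M) * M = η / 2 := by field_simp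
    linarith
  · push Not at hkd
    have h1 := hpol k hk
    have h2 : 0 < η / (2 * M) * k (d i) := mul_pos ht hkd
    linarith

/-- an affine self-map of a convex body has a fixed point in the interior -/
theorem exists_fixed {W : Type*} [NormedAddCommGroup W] [NormedSpace ℝ W]
    [FiniteDimensional ℝ W] {L : Set W} (hc : Convex ℝ L) (hk : IsCompact L)
    (hi : (interior L).Nonempty) (g : W →ᵃ[ℝ] W) (hg : g '' L = L) :
    ∃ c ∈ interior L, g c = c := by
  obtain ⟨x0, hx0⟩ := hi
  obtain ⟨ε, hε, hball⟩ := Metric.isOpen_iff.mp isOpen_interior _ hx0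
  obtain ⟨R, hR⟩ := hk.isBounded.exists_norm_le
  have hgL : ∀ x ∈ L, g x ∈ L := fun x hx => by
    have : g x ∈ g '' L := ⟨x, hx, rfl⟩
    rwa [hg] at this
  set r : ℝ := ε / (2 * (|R| + 1) + 1) with hr
  have hr0 : 0 < r := by positivity
  set S : Set W := {x | ∀ u ∈ L, ∀ v ∈ L, x + r • (u - v) ∈ L} with hS
  have hSL : S ⊆ L := by
    intro x hx
    have := hx x0 (interior_subset hx0) x0 (interior_subset hx0)
    simpa using this
  have hSint : S ⊆ interior L := by
    intro x hx
    rw [mem_interior_iff_mem_nhds, Metric.mem_nhds_iff]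
    refine ⟨r * ε, by positivity, fun z hz => ?_⟩
    rw [Metric.mem_ball, dist_eq_norm] at hz
    have h1 : x0 + r⁻¹ • (z - x) ∈ L := by
      apply interior_subset
      apply hball
      rw [Metric.mem_ball, dist_eq_norm, add_sub_cancel_left, norm_smul, Real.norm_eq_abs,
        abs_of_pos (by positivity), inv_mul_lt_iff₀ hr0]
      exact hz
    have h2 := hx _ h1 _ (interior_subset hx0)
    rw [add_sub_cancel_left, smul_smul, mul_inv_cancel₀ hr0.ne', one_smul, add_sub_cancel] at h2
    exact h2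
  have hScl : IsClosed S := by
    have : S = ⋂ u ∈ L, ⋂ v ∈ L, {x | x + r • (u - v) ∈ L} := by
      ext x; simp [hS]
    rw [this]
    refine isClosed_biInter fun u _ => isClosed_biInter fun v _ => ?_
    exact hk.isClosed.preimage (by fun_prop)
  have hScpt : IsCompact S := hk.of_isClosed_subset hScl hSL
  have hSconv : Convex ℝ S := by
    intro x hx y hy a b ha hb hab u hu v hv
    have h1 := hc (hx u hu v hv) (hy u hu v hv) ha hb hab
    convert h1 using 1
    have : r • (u - v) = a • r • (u - v) + b • r • (u - v) := by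
      rw [← add_smul, hab, one_smul]
    conv_lhs => rw [this]
    rw [smul_add, smul_add]
    abel
  have hx0S : x0 ∈ S := by
    intro u hu v hv
    apply interior_subset
    apply hball
    rw [Metric.mem_ball, dist_eq_norm, add_sub_cancel_left, norm_smul, Real.norm_eq_abs,
      abs_of_pos hr0, hr, div_mul_eq_mul_div, div_lt_iff₀ (by positivity)]
    apply mul_lt_mul_of_pos_left _ hε
    have h1 := hR u hu
    have h2 := hR v hv
    have h3 := norm_sub_le u v
    have h4 := le_abs_self R
    linarith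
  have hgS : ∀ x ∈ S, g x ∈ S := by
    intro x hx u hu v hv
    rw [← hg] at hu hv
    obtain ⟨u', hu', rfl⟩ := hu
    obtain ⟨v', hv', rfl⟩ := hv
    have h1 := hgL _ (hx u' hu' v' hv')
    convert h1 using 1
    have h2 : g (x + r • (u' - v')) = g x + r • (g u' - g v') := by
      have e1 : g (x + r • (u' - v')) = g.linear (r • (u' - v')) + g x := by
        have e3 := g.map_vadd x (r • (u' - v'))
        rw [vadd_eq_add, vadd_eq_add, add_comm (r • (u' - v')) x] at e3
        exact e3
      have e2 : g.linear (u' - v') = g u' - g v' := g.linearMap_vsub u' v'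
      rw [e1, map_smul, e2, add_comm]
    exact h2.symm
  -- averages
  have hcont : Continuous g := g.continuous_of_finiteDimensional
  obtain ⟨c, hcS, hmin⟩ := hScpt.exists_isMinOn ⟨x0, hx0S⟩
    ((hcont.sub continuous_id).norm.continuousOn)
  refine ⟨c, hSint hcS, ?_⟩
  have hiter : ∀ n : ℕ, g^[n] x0 ∈ S := by
    intro n
    induction n with
    | zero => exact hx0S
    | succ n ih => rw [Function.iterate_succ_apply']; exact hgS _ ih
  -- the averages satisfy `g a - a = (g^[n+1] x0 - x0) / (n+1)`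
  have havg : ∀ n : ℕ, ∃ a ∈ S, ((n : ℝ) + 1) • (g a - a) = g^[n + 1] x0 - x0 := by
    intro n
    induction n with
    | zero => exact ⟨x0, hx0S, by simp⟩
    | succ n ih =>
      obtain ⟨a, ha, he⟩ := ih
      have hn : (0 : ℝ) < (n : ℝ) + 1 + 1 := by positivity
      refine ⟨(((n : ℝ) + 1) / ((n : ℝ) + 1 + 1)) • a + (1 / ((n : ℝ) + 1 + 1)) • g^[n + 1] x0,
        hSconv ha (hiter _) (by positivity) (by positivity) (by field_simp), ?_⟩
      have h1 : g ((((n : ℝ) + 1) / ((n : ℝ) + 1 + 1)) • a +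
          (1 / ((n : ℝ) + 1 + 1)) • g^[n + 1] x0) =
          (((n : ℝ) + 1) / ((n : ℝ) + 1 + 1)) • g a +
          (1 / ((n : ℝ) + 1 + 1)) • g (g^[n + 1] x0) :=
        Convex.combo_affine_apply (f := g) (by field_simp)
      rw [h1, ← Function.iterate_succ_apply' g (n + 1) x0]
      push_cast
      rw [smul_sub, smul_add, smul_add, smul_smul, smul_smul, smul_smul, smul_smul,
        mul_div_cancel₀ _ hn.ne', mul_one_div_cancel hn.ne', one_smul, one_smul]
      have h2 : ((n : ℝ) + 1) • g a = ((n : ℝ) + 1) • a + (g^[n + 1] x0 - x0) := by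
        rw [← he, smul_sub]; abel
      rw [h2]
      abel
  have hzero : ‖g c - c‖ = 0 := by
    by_contra hne
    have hpos : 0 < ‖g c - c‖ := lt_of_le_of_ne (norm_nonneg _) (Ne.symm hne)
    obtain ⟨n, hn⟩ := exists_nat_gt (2 * (|R| + 1) / ‖g c - c‖)
    obtain ⟨a, ha, he⟩ := havg n
    have h1 : ‖g c - c‖ ≤ ‖g a - a‖ := hmin ha
    have h2 : ((n : ℝ) + 1) * ‖g a - a‖ ≤ 2 * (|R| + 1) := by
      have h3 : ‖((n : ℝ) + 1) • (g a - a)‖ = ((n : ℝ) + 1) * ‖g a - a‖ := by
        rw [norm_smul, Real.norm_eq_abs, abs_of_pos (by positivity)]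
      rw [← h3, he]
      have h4 := hR _ (hSL (hiter (n + 1)))
      have h5 := hR _ (hSL hx0S)
      have h6 := norm_sub_le (g^[n + 1] x0) x0
      have h7 := le_abs_self R
      linarith
    rw [div_lt_iff₀ hpos] at hn
    nlinarith
  rw [norm_eq_zero, sub_eq_zero] at hzero
  exact hzero

end Pool.Agent.Lib.MP_5e7226_co.CS
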