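import Pool.Agent.Lib.MP_5e7226_co.CS.Proj

/-! Illumination of bodies with an affine symmetry; separation with projective symmetries. -/

set_option autoImplicit false

open Set Filter Topology

namespace Pool.Agent.Lib.MP_5e7226_co.CS

open Pool.Agent.Lib.MP_5e7226_co

/-- Every convex body in a three-dimensional space with a nontrivial affine symmetry is illuminated
by eight directions. -/
theorem illum_sym {W : Type*} [NormedAddCommGroup W] [NormedSpace ℝ W]
    [FiniteDimensional ℝ W] (hdim : Module.finrank ℝ W = 3) {L : Set W} (hc : Convex ℝ L)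
    (hk : IsCompact L) (hi : (interior L).Nonempty) (g : W →ᵃ[ℝ] W) (hg : g '' L = L)
    (hne : ∃ x, g x ≠ x) : Illum L 8 := by
  obtain ⟨c, hcL, hgc⟩ := exists_fixed hc hk hi g hg
  apply PS.illum_translate (-c)
  set L' : Set W := (fun x => x + -c) '' L with hL'
  have hc' : Convex ℝ L' := PS.convex_translate hc (-c)
  have hk' : IsCompact L' := hk.image (continuous_id.add continuous_const)
  have h0' : (0 : W) ∈ interior L' := by
    have h := (Homeomorph.addRight (-c)).isOpenMap.image_interior_subset L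
    apply h
    exact ⟨c, hcL, by simp⟩
  have hgM : ∀ x, g x + -c = g.linear (x + -c) := by
    intro x
    have e2 : g.linear (x -ᵥ c) = g x -ᵥ g c := g.linearMap_vsub x c
    rw [vsub_eq_sub, vsub_eq_sub, hgc] at e2
    rw [← sub_eq_add_neg, ← sub_eq_add_neg, e2]
  have hM : g.linear '' L' = L' := by
    rw [hL', ← image_comp]
    have : (fun x => g.linear (x + -c)) '' L = (fun x => x + -c) '' (g '' L) := by
      rw [← image_comp]
      apply image_congr
      intro x _
      exact (hgM x).symm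
    rw [hg] at this
    exact this
  -- the linear part is injective
  have hinj : Function.Injective g.linear := by
    rw [← LinearMap.ker_eq_bot, LinearMap.ker_eq_bot_iff_range_eq_top]
    obtain ⟨ε, hε, hball⟩ := Metric.isOpen_iff.mp isOpen_interior _ h0'
    rw [LinearMap.range_eq_top]
    intro z
    -- a small multiple of `z` lies in `L'`
    have hn : 0 < 2 * (‖z‖ + 1) / ε := by positivity
    have hz : (2 * (‖z‖ + 1) / ε)⁻¹ • z ∈ L' := by
      apply interior_subset
      apply hball
      rw [Metric.mem_ball, dist_zero_right, norm_smul, Real.norm_eq_abs,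
        abs_of_pos (by positivity), inv_mul_lt_iff₀ hn, div_mul_cancel₀ _ hε.ne']
      have := norm_nonneg z
      linarith
    rw [← hM] at hz
    obtain ⟨y, _, hy⟩ := hz
    refine ⟨(2 * (‖z‖ + 1) / ε) • y, ?_⟩
    rw [map_smul, hy, smul_smul, mul_inv_cancel₀ hn.ne', one_smul]
  let Me : W ≃ₗ[ℝ] W := LinearEquiv.ofInjectiveEndo g.linear hinj
  have hMe : ∀ x, Me x = g.linear x := fun x => rfl
  let Mc : W ≃L[ℝ] W := Me.toContinuousLinearEquiv
  have hMc : ∀ x, Mc x = g.linear x := fun x => rfl
  -- the adjoint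
  let A : (W →L[ℝ] ℝ) →ₗ[ℝ] (W →L[ℝ] ℝ) :=
    { toFun := fun k => k.comp (Mc : W →L[ℝ] W)
      map_add' := fun k k' => by ext x; simp
      map_smul' := fun r k => by ext x; simp }
  have hAa : ∀ k x, A k x = k (g.linear x) := fun k x => rfl
  have hA : A '' polarBody L' = polarBody L' := by
    ext k
    constructor
    · rintro ⟨k', hk', rfl⟩ x hx
      rw [hAa]
      apply hk'
      rw [← hM]
      exact ⟨x, hx, rfl⟩
    · intro hk
      refine ⟨k.comp (Mc.symm : W →L[ℝ] W), ?_, ?_⟩
      · intro x hx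
        rw [← hM] at hx
        obtain ⟨y, hy, rfl⟩ := hx
        have : Mc.symm (g.linear y) = y := by rw [← hMc, Mc.symm_apply_apply]
        simp only [ContinuousLinearMap.comp_apply, ContinuousLinearEquiv.coe_coe, this]
        exact hk y hy
      · ext x
        rw [hAa]
        have : Mc.symm (g.linear x) = x := by rw [← hMc, Mc.symm_apply_apply]
        simp only [ContinuousLinearMap.comp_apply, ContinuousLinearEquiv.coe_coe, this]
  have hdual : Module.finrank ℝ (W →L[ℝ] ℝ) = 3 := by
    rw [← hdim, ← Subspace.dual_finrank_eq (K := ℝ) (V := W)]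
    exact (LinearMap.toContinuousLinearMap (𝕜 := ℝ) (E := W) (F' := ℝ)).symm.finrank_eq
  have hAne : ∃ k, A k ≠ k := by
    by_contra hcon
    push Not at hcon
    obtain ⟨x, hx⟩ := hne
    have hlin : g.linear (x + -c) ≠ x + -c := by
      intro he
      apply hx
      rw [← hgM] at he
      exact add_right_cancel he
    have hd : g.linear (x + -c) - (x + -c) ≠ 0 := sub_ne_zero.2 hlin
    obtain ⟨k, -, hk⟩ := exists_dual_vector ℝ _ (norm_ne_zero_iff.2 hd)
    have h1 : A k (x + -c) = k (x + -c) := by rw [hcon]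
    rw [hAa] at h1
    rw [map_sub, h1, sub_self] at hk
    exact (norm_ne_zero_iff.2 hd) (by simpa using hk.symm)
  apply illum_of_sep_polar hc' h0' (by norm_num)
  exact sep_sym hdual (polarBody_convex L')
    (Metric.isCompact_of_isClosed_isBounded (polarBody_closed L') (polarBody_bounded h0'))
    (polarBody_zero_mem_interior hk') A hA hAne

/-- Separation of the faces from the origin for bodies with a projective symmetry fixing the
origin. -/
theorem sep_proj {V : Type*} [NormedAddCommGroup V] [NormedSpace ℝ V] [FiniteDimensional ℝ V]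
    (hdim : Module.finrank ℝ V = 3) {K : Set V}
    (hK : IsCompact K) (h0 : (0 : V) ∈ interior K) (A : V →ₗ[ℝ] V) (a : V →L[ℝ] ℝ)
    (hpos : ∀ x ∈ K, 0 < 1 + a x) (hA : (fun x => (1 + a x)⁻¹ • A x) '' K = K)
    (hne : ∃ x ∈ K, (1 + a x)⁻¹ • A x ≠ x) : Sep K 8 := by
  apply Sep.of_illum_polar hK h0
  have hdual : Module.finrank ℝ (V →L[ℝ] ℝ) = 3 := by
    rw [← hdim, ← Subspace.dual_finrank_eq (K := ℝ) (V := V)]
    exact (LinearMap.toContinuousLinearMap (𝕜 := ℝ) (E := V) (F' := ℝ)).symm.finrank_eq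
  -- `A` is surjective
  have hsurj : Function.Surjective A := by
    obtain ⟨ε, hε, hball⟩ := Metric.isOpen_iff.mp isOpen_interior _ h0
    intro z
    have hn : 0 < 2 * (‖z‖ + 1) / ε := by positivity
    have hz : (2 * (‖z‖ + 1) / ε)⁻¹ • z ∈ K := by
      apply interior_subset
      apply hball
      rw [Metric.mem_ball, dist_zero_right, norm_smul, Real.norm_eq_abs,
        abs_of_pos (by positivity), inv_mul_lt_iff₀ hn, div_mul_cancel₀ _ hε.ne']
      have := norm_nonneg z
      linarith
    rw [← hA] at hz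
    obtain ⟨y, _, hy⟩ := hz
    simp only at hy
    refine ⟨(2 * (‖z‖ + 1) / ε) • (1 + a y)⁻¹ • y, ?_⟩
    rw [map_smul, map_smul, hy, smul_smul, mul_inv_cancel₀ hn.ne', one_smul]
  have hinj : Function.Injective A := LinearMap.injective_iff_surjective.2 hsurj
  let Ae : V ≃L[ℝ] V := (LinearEquiv.ofInjectiveEndo A hinj).toContinuousLinearEquiv
  have hAe : ∀ x, Ae x = A x := fun x => rfl
  let M : (V →L[ℝ] ℝ) →ₗ[ℝ] (V →L[ℝ] ℝ) :=
    { toFun := fun k => k.comp (Ae : V →L[ℝ] V)
      map_add' := fun k k' => by ext x; simp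
      map_smul' := fun r k => by ext x; simp }
  have hMa : ∀ k x, M k x = k (A x) := fun k x => rfl
  let g : (V →L[ℝ] ℝ) →ᵃ[ℝ] (V →L[ℝ] ℝ) := M.toAffineMap + AffineMap.const ℝ _ (-a)
  have hga : ∀ k, g k = M k - a := by
    intro k
    change M k + -a = M k - a
    abel
  have hgx : ∀ k x, g k x = k (A x) - a x := by
    intro k x
    rw [hga]
    rfl
  -- membership
  have hmem : ∀ k, g k ∈ polarBody K ↔ k ∈ polarBody K := by
    intro k
    constructor
    · intro h y hy
      rw [← hA] at hy
      obtain ⟨x, hx, rfl⟩ := hy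
      have h1 := h x hx
      rw [hgx] at h1
      simp only
      rw [map_smul, smul_eq_mul, inv_mul_le_iff₀ (hpos x hx)]
      linarith
    · intro h x hx
      rw [hgx]
      have h1 : (1 + a x)⁻¹ • A x ∈ K := by
        have : (1 + a x)⁻¹ • A x ∈ (fun x => (1 + a x)⁻¹ • A x) '' K := ⟨x, hx, rfl⟩
        rwa [hA] at this
      have h2 := h _ h1
      rw [map_smul, smul_eq_mul, inv_mul_le_iff₀ (hpos x hx)] at h2
      linarith
  have hg : g '' polarBody K = polarBody K := by
    ext k
    constructor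
    · rintro ⟨k', hk', rfl⟩
      exact (hmem k').2 hk'
    · intro hk
      have he : g ((k + a).comp (Ae.symm : V →L[ℝ] V)) = k := by
        ext x
        rw [hgx]
        have : Ae.symm (A x) = x := by rw [← hAe, Ae.symm_apply_apply]
        simp only [ContinuousLinearMap.comp_apply, ContinuousLinearEquiv.coe_coe, this,
          FunLike.coe_add, Pi.add_apply]
        ring
      refine ⟨(k + a).comp (Ae.symm : V →L[ℝ] V), ?_, he⟩
      rw [← hmem, he]
      exact hk
  refine illum_sym hdual (polarBody_convex K)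
    (Metric.isCompact_of_isClosed_isBounded (polarBody_closed K) (polarBody_bounded h0))
    ⟨0, polarBody_zero_mem_interior hK⟩ g hg ?_
  by_contra hcon
  push Not at hcon
  obtain ⟨x, hx, hxne⟩ := hne
  -- `g 0 = 0` gives `a = 0`, and then `A = 1`
  have ha : ∀ y, a y = 0 := by
    intro y
    have h1 : g 0 y = (0 : V →L[ℝ] ℝ) y := by rw [hcon]
    rw [hgx] at h1
    simpa using h1
  apply hxne
  rw [ha, add_zero, inv_one, one_smul]
  by_contra hne'
  obtain ⟨k, -, hk⟩ := exists_dual_vector ℝ _ (norm_ne_zero_iff.2 (sub_ne_zero.2 hne'))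
  have h1 : g k x = k x := by rw [hcon]
  rw [hgx, ha, sub_zero] at h1
  rw [map_sub, h1, sub_self] at hk
  exact (norm_ne_zero_iff.2 (sub_ne_zero.2 hne')) (by simpa using hk.symm)

/-- The final theorem, with projective symmetries. -/
theorem final_proj (K : Set (EuclideanSpace ℝ (Fin 3))) (hK : IsCompact K)
    (o : EuclideanSpace ℝ (Fin 3)) (ho : o ∈ interior K)
    (A : EuclideanSpace ℝ (Fin 3) → EuclideanSpace ℝ (Fin 3)) (hlin : IsLinearMap ℝ A)
    (a : EuclideanSpace ℝ (Fin 3)) (hpos : ∀ x ∈ K, 0 < 1 + inner ℝ a (x - o))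
    (hA : (fun x => o + (1 + inner ℝ a (x - o))⁻¹ • A (x - o)) '' K = K)
    (h : ∃ x ∈ K, o + (1 + inner ℝ a (x - o))⁻¹ • A (x - o) ≠ x) :
    ∃ w : Fin 8 → EuclideanSpace ℝ (Fin 3), ∃ b : Fin 8 → ℝ,
      ∀ u x₀ : EuclideanSpace ℝ (Fin 3), u ≠ 0 → x₀ ∈ K →
        (∀ y ∈ K, inner ℝ u y ≤ inner ℝ u x₀) →
          ∃ i, inner ℝ (w i) o < b i ∧
            ∀ x ∈ K, inner ℝ u x = inner ℝ u x₀ → b i < inner ℝ (w i) x := by
  apply sep_to_hyperplanes hK o
  set K₁ : Set (EuclideanSpace ℝ (Fin 3)) := (fun x => x - o) '' K with hK₁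
  have hK₁c : IsCompact K₁ := hK.image (continuous_id.sub continuous_const)
  have hK₁i : (0 : EuclideanSpace ℝ (Fin 3)) ∈ interior K₁ := by
    have h := (Homeomorph.subRight o).isOpenMap.image_interior_subset K
    apply h
    exact ⟨o, ho, by simp⟩
  apply sep_proj (by simp) hK₁c hK₁i (hlin.mk' A) (innerSL ℝ a)
  · rintro _ ⟨x, hx, rfl⟩
    simpa using hpos x hx
  · rw [hK₁]
    conv_rhs => rw [← hA]
    rw [← image_comp, ← image_comp]
    apply image_congr
    intro x _
    simp [innerSL_apply_apply]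
  · obtain ⟨x, hx, hxne⟩ := h
    refine ⟨x - o, ⟨x, hx, rfl⟩, fun he => hxne ?_⟩
    rw [innerSL_apply_apply] at he
    have : (hlin.mk' A) (x - o) = A (x - o) := rfl
    rw [this] at he
    rw [he]
    abel

end Pool.Agent.Lib.MP_5e7226_co.CS
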